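import Mathlib
import Pool.Agent.K9h23.Lac.Trans
import Pool.Agent.K9h23.Lac.Stp

/-!
The pointwise inequality for a large block.
-/

set_option autoImplicit false

open Complex

namespace Pool.Agent.K9h23.Big

open Pool.Agent.K9h23.Lac

variable {N : ℕ}

/-- the truncated exponential -/
noncomputable def ET (T : ℕ) (A : ℝ) (x : ℂ) : ℂ :=
  ∑ k ∈ Finset.range (T + 1), ((A : ℂ) * x) ^ k / (k.factorial : ℂ)

/-- the solution at `a` -/
noncomputable def c0 (Θ : ℝ) (a H : Fin N → ℂ) (j : Fin N) : ℂ :=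
  th Θ (nsq H) * (((sg (nsq a) (nsq H) : ℝ) : ℂ)⁻¹ * UU a H j) +
    (1 - th Θ (nsq H)) * ((nsq a : ℂ)⁻¹ * starRingEnd ℂ (a j))

/-- `1 - (1 + y) E` -/
noncomputable def lam (T : ℕ) (A : ℝ) (a H v : Fin N → ℂ) : ℂ :=
  -(bd H v + (ET T A (xx a v) - 1) + bd H v * (ET T A (xx a v) - 1))

theorem lam_eq (T : ℕ) (A : ℝ) (a H v : Fin N → ℂ) :
    lam T A a H v = 1 - (1 + bd H v) * ET T A (xx a v) := by
  unfold lam
  ring

/-- the model of the new solution -/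
noncomputable def mdl (T : ℕ) (A Θ : ℝ) (a H v w : Fin N → ℂ) (j : Fin N) : ℂ :=
  ET T A (xx a v) * H j + lam T A a H v * (c0 Θ a H j - w j)

theorem bd_UU {a H : Fin N → ℂ} (h1 : bd a H = 1) :
    bd a (UU a H) = ((nsq a * nsq H - 1 : ℝ) : ℂ) := by
  have h := comb_bd a H (fun _ => 0) h1 0 1
  have e1 : (fun j => a j + (0:ℂ)) = a := by funext j; ring
  have e2 : (fun j => (0:ℂ) * H j + 1 * UU a H j) = UU a H := by funext j; ring
  have e3 : xx a (fun _ => (0:ℂ)) = 0 := by unfold xx; simp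
  have e4 : bd H (fun _ => (0:ℂ)) = 0 := by unfold bd; simp
  rw [e1, e2, e3, e4] at h
  rw [h]
  ring

theorem nsq_UU {a H : Fin N → ℂ} (h1 : bd a H = 1) :
    nsq (UU a H) = nsq H * (nsq a * nsq H - 1) := by
  have h := comb_nsq a H h1 0 1
  have e2 : (fun j => (0:ℂ) * H j + 1 * UU a H j) = UU a H := by funext j; ring
  rw [e2] at h
  rw [h]
  simp

section c0

variable {Θ δ : ℝ} {a H : Fin N → ℂ}

theorem sg_big (hδ : 0 < δ) (hΘ : 1 / δ ^ 2 ≤ Θ) (ha : δ ^ 2 ≤ nsq a) (ht : 25 * Θ ≤ nsq H) :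
    sg (nsq a) (nsq H) = nsq a * nsq H - 1 ∧ 2 ≤ nsq a * nsq H ∧
      nsq a * nsq H / 2 ≤ nsq a * nsq H - 1 := by
  have h1 : 1 ≤ Θ * δ ^ 2 := by
    rw [div_le_iff₀ (by positivity)] at hΘ
    exact hΘ
  have h2 : 25 ≤ nsq a * nsq H := by
    have h3 : δ ^ 2 * (25 * Θ) ≤ nsq a * nsq H :=
      mul_le_mul ha ht (by nlinarith [sq_nonneg δ]) (nsq_nonneg _)
    nlinarith
  refine ⟨?_, by linarith, by linarith⟩
  unfold sg
  rw [max_eq_left]
  linarith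

theorem c0_big (hδ : 0 < δ) (hΘ : 1 / δ ^ 2 ≤ Θ) (hΘ4 : 4 ≤ Θ) (ha : δ ^ 2 ≤ nsq a)
    (ht : 100 * Θ < nsq H) : c0 Θ a H = fun j => ((nsq a * nsq H - 1 : ℝ) : ℂ)⁻¹ * UU a H j := by
  have h1 : th Θ (nsq H) = 1 := by
    by_contra hcon
    have := th_one (A := Θ) (by linarith) hcon
    linarith
  funext j
  unfold c0
  rw [h1, (sg_big hδ hΘ ha (by linarith)).1]
  simp

theorem c0_bd (hδ : 0 < δ) (hΘ : 1 / δ ^ 2 ≤ Θ) (hΘ4 : 4 ≤ Θ) (ha : δ ^ 2 ≤ nsq a)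
    (h1 : bd a H = 1) : bd a (c0 Θ a H) = 1 := by
  have hs0 : 0 < nsq a := lt_of_lt_of_le (by positivity) ha
  have hsc : (nsq a : ℂ) ≠ 0 := by exact_mod_cast hs0.ne'
  have e0 : bd a (fun j => (nsq a : ℂ)⁻¹ * starRingEnd ℂ (a j)) = 1 := by
    rw [bd_smul]
    unfold bd
    rw [← nsq_c, inv_mul_cancel₀ hsc]
  have e1 : bd a (c0 Θ a H) = (1 - (th Θ (nsq H) : ℂ)) *
      bd a (fun j => (nsq a : ℂ)⁻¹ * starRingEnd ℂ (a j)) + (th Θ (nsq H) : ℂ) *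
      bd a (fun j => ((sg (nsq a) (nsq H) : ℝ) : ℂ)⁻¹ * UU a H j) := by
    rw [← bd_conv]
    congr 1
    funext j
    unfold c0
    ring
  rw [e1, e0, bd_smul, bd_UU h1]
  by_cases hth : th Θ (nsq H) = 0
  · rw [hth]; simp
  · have ht := th_pos (A := Θ) (by linarith) hth
    obtain ⟨h2, h3, -⟩ := sg_big hδ hΘ ha ht
    rw [h2]
    have h4 : ((nsq a * nsq H - 1 : ℝ) : ℂ) ≠ 0 := by
      have : nsq a * nsq H - 1 ≠ 0 := by linarith
      exact_mod_cast this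
    rw [inv_mul_cancel₀ h4]
    ring

theorem c0_nn (hδ : 0 < δ) (hΘ : 1 / δ ^ 2 ≤ Θ) (hΘ4 : 4 ≤ Θ) (ha : δ ^ 2 ≤ nsq a)
    (h1 : bd a H = 1) : nn (c0 Θ a H) ≤ 2 / δ := by
  have hs0 : 0 < nsq a := lt_of_lt_of_le (by positivity) ha
  have e0 : nsq (fun j => (nsq a : ℂ)⁻¹ * starRingEnd ℂ (a j)) ≤ (2 / δ) ^ 2 := by
    rw [nsq_smul, nsq_conj, norm_inv, Complex.norm_real, Real.norm_of_nonneg hs0.le]
    have h2 : (nsq a)⁻¹ ^ 2 * nsq a = 1 / nsq a := by field_simp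
    rw [h2, div_pow]
    exact div_le_div₀ (by norm_num) (by norm_num) (by positivity) ha
  refine nn_le_of (by positivity) ?_
  by_cases hth : th Θ (nsq H) = 0
  · have e1 : c0 Θ a H = fun j => (nsq a : ℂ)⁻¹ * starRingEnd ℂ (a j) := by
      funext j
      unfold c0
      rw [hth]
      simp
    rw [e1]
    exact e0
  · have ht := th_pos (A := Θ) (by linarith) hth
    obtain ⟨h2, h3, h4⟩ := sg_big hδ hΘ ha ht
    have e1 : c0 Θ a H = fun j => (1 - (th Θ (nsq H) : ℂ)) *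
        ((nsq a : ℂ)⁻¹ * starRingEnd ℂ (a j)) + (th Θ (nsq H) : ℂ) *
        (((sg (nsq a) (nsq H) : ℝ) : ℂ)⁻¹ * UU a H j) := by
      funext j
      unfold c0
      ring
    rw [e1]
    refine nsq_conv th_mem.1 th_mem.2 e0 ?_
    rw [nsq_smul, nsq_UU h1, h2, norm_inv, Complex.norm_real,
      Real.norm_of_nonneg (by linarith)]
    have ht0 : 0 < nsq H := by linarith
    have h5 : 0 < nsq a * nsq H - 1 := by linarith
    have h6 : (nsq a * nsq H - 1)⁻¹ ^ 2 * (nsq H * (nsq a * nsq H - 1)) =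
        nsq H / (nsq a * nsq H - 1) := by field_simp
    rw [h6, div_le_iff₀ h5, div_pow]
    have h7 : (2 ^ 2 / δ ^ 2) * (nsq a * nsq H / 2) ≤
        (2 ^ 2 / δ ^ 2) * (nsq a * nsq H - 1) := mul_le_mul_of_nonneg_left h4 (by positivity)
    refine le_trans ?_ h7
    have h8 : (2 ^ 2 / δ ^ 2) * (nsq a * nsq H / 2) = 2 * nsq H * (nsq a / δ ^ 2) := by
      field_simp
    rw [h8]
    have h9 : 1 ≤ nsq a / δ ^ 2 := by
      rw [le_div_iff₀ (by positivity)]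
      linarith
    nlinarith

end c0

theorem ET_norm (T : ℕ) {A : ℝ} (hA : 0 ≤ A) (x : ℂ) : ‖ET T A x‖ ≤ Real.exp (A * ‖x‖) := by
  unfold ET
  refine (norm_sum_le _ _).trans ?_
  have h1 : ∀ k ∈ Finset.range (T + 1), ‖((A : ℂ) * x) ^ k / (k.factorial : ℂ)‖ =
      (A * ‖x‖) ^ k / (k.factorial : ℝ) := by
    intro k _
    rw [norm_div, norm_pow, norm_mul, Complex.norm_real, Real.norm_of_nonneg hA,
      Complex.norm_natCast]
  rw [Finset.sum_congr rfl h1]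
  exact Real.sum_le_exp_of_nonneg (by positivity) _

/-- the truncated exponential is close to the exponential -/
theorem exists_T {A : ℝ} (hA : 1 ≤ A) : ∃ T : ℕ, ∀ x : ℂ, ‖x‖ ≤ 8 →
    ‖ET T A x - cexp (A * x)‖ ≤ Real.exp (-(8 * A)) * (‖x‖ ^ 2 / 128) := by
  have hA0 : 0 < A := by linarith
  have h1 := FloorSemiring.tendsto_pow_div_factorial_atTop (8 * A)
  have h2 := h1.eventually_lt_const (show 0 < Real.exp (-(8 * A)) / 4 by positivity)
  have h3 := Filter.eventually_ge_atTop (⌈16 * A⌉₊ + 2)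
  obtain ⟨n, hn1, hn2⟩ := (h2.and h3).exists
  obtain ⟨T, rfl⟩ : ∃ T, n = T + 1 := ⟨n - 1, by omega⟩
  refine ⟨T, fun x hx => ?_⟩
  have hX : ‖(A : ℂ) * x‖ = A * ‖x‖ := by
    rw [norm_mul, Complex.norm_real, Real.norm_of_nonneg hA0.le]
  have hx0 := norm_nonneg x
  have h16 : 16 * A ≤ ((T + 1 : ℕ) : ℝ) := by
    refine (Nat.le_ceil _).trans ?_
    exact_mod_cast (by omega : ⌈16 * A⌉₊ ≤ T + 1)
  have h4 := Complex.exp_bound' (x := (A : ℂ) * x) (n := T + 1) (by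
    rw [hX, div_le_iff₀ (by positivity)]
    push_cast at h16 ⊢
    nlinarith)
  rw [norm_sub_rev] at h4
  have h5 : ∑ m ∈ Finset.range (T + 1), ((A : ℂ) * x) ^ m / (m.factorial : ℂ) = ET T A x := rfl
  rw [h5, hX] at h4
  refine h4.trans ?_
  obtain ⟨T', rfl⟩ : ∃ T', T = T' + 1 := ⟨T - 1, by omega⟩
  have h6 : (A * ‖x‖) ^ (T' + 1 + 1) ≤ (8 * A) ^ (T' + 1 + 1) * (‖x‖ ^ 2 / 64) := by
    have e1 : (A * ‖x‖) ^ (T' + 1 + 1) = A ^ (T' + 1 + 1) * (‖x‖ ^ T' * ‖x‖ ^ 2) := by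
      rw [mul_pow]; ring
    have e2 : (8 * A) ^ (T' + 1 + 1) * (‖x‖ ^ 2 / 64) = A ^ (T' + 1 + 1) * (8 ^ T' * ‖x‖ ^ 2) := by
      rw [mul_pow]; ring
    rw [e1, e2]
    gcongr
  calc (A * ‖x‖) ^ (T' + 1 + 1) / ((T' + 1 + 1).factorial : ℝ) * 2 ≤
        (8 * A) ^ (T' + 1 + 1) * (‖x‖ ^ 2 / 64) / ((T' + 1 + 1).factorial : ℝ) * 2 := by
        gcongr
    _ = (8 * A) ^ (T' + 1 + 1) / ((T' + 1 + 1).factorial : ℝ) * (‖x‖ ^ 2 / 32) := by ring
    _ ≤ Real.exp (-(8 * A)) / 4 * (‖x‖ ^ 2 / 32) :=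
        mul_le_mul_of_nonneg_right hn1.le (by positivity)
    _ = _ := by ring

/-- `e^z - 1` -/
theorem exp_sub_one_le (z : ℂ) : ‖cexp z - 1‖ ≤ ‖z‖ * Real.exp ‖z‖ := by
  have h := Complex.norm_exp_sub_sum_le_norm_mul_exp z 1
  simpa using h

/-- **The pointwise inequality.** -/
theorem pw {δ A Θ C2 : ℝ} {T : ℕ} (hδ : 0 < δ) (hδ1 : δ ≤ 1) (hC2 : 0 ≤ C2)
    (hA : 1 + 32 / δ ^ 2 + 8 * C2 ≤ A)
    (hT : ∀ x : ℂ, ‖x‖ ≤ 8 → ‖ET T A x - cexp (A * x)‖ ≤ Real.exp (-(8 * A)) * (‖x‖ ^ 2 / 128))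
    (hΘ : 1 / δ ^ 2 ≤ Θ) (hΘ4 : 4 ≤ Θ) (hΘA : (A * Real.exp (8 * A)) ^ 2 ≤ Θ)
    {a H v w : Fin N → ℂ} {η : ℝ} (hη : 0 ≤ η) (ha : δ ^ 2 ≤ nsq a) (ha4 : nsq a ≤ 4)
    (h1 : bd a H = 1) (hv : nn v ≤ 4) (hw : nn w ≤ C2 * (nn v + η)) (ht : 100 * Θ < nsq H) :
    nsq (mdl T A Θ a H v w) * Real.exp (-(A * nsq (fun j => a j + v j))) ≤
      nsq H * Real.exp (-(A * nsq a)) * Real.exp (32 * C2 * η) := by
  have hδ2 : 0 < 32 / δ ^ 2 := by positivity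
  have hA1 : 1 ≤ A := by linarith
  have hA0 : 0 < A := by linarith
  have hv0 := nn_nonneg v
  have ht0 : 0 < nsq H := by linarith
  set τ : ℝ := Real.sqrt (nsq H) with hτ
  have hτ2 : τ ^ 2 = nsq H := Real.sq_sqrt ht0.le
  have hτ0 : 0 < τ := Real.sqrt_pos.2 ht0
  have hτ20 : 20 ≤ τ := Real.le_sqrt_of_sq_le (by linarith)
  have hnH : nn H = τ := rfl
  have hna : nn a ≤ 2 := nn_le_of (by norm_num) (by linarith)
  -- the quantities
  set x : ℂ := xx a v with hx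
  set X : ℂ := A * x with hX
  set y : ℂ := bd H v with hy
  set E : ℂ := ET T A x with hE
  have hxn : ‖x‖ ≤ 2 * nn v := by
    have h2 : ‖x‖ ^ 2 ≤ (2 * nn v) ^ 2 := by
      rw [hx, mul_pow, nn_sq]
      refine (xx_le a v).trans ?_
      exact mul_le_mul_of_nonneg_right (by linarith) (nsq_nonneg _)
    exact le_of_sq_le_sq h2 (by positivity)
  have hx8 : ‖x‖ ≤ 8 := by linarith
  have hx0 := norm_nonneg x
  have hXn : ‖X‖ = A * ‖x‖ := by
    rw [hX, norm_mul, Complex.norm_real, Real.norm_of_nonneg hA0.le]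
  have hX8 : ‖X‖ ≤ 8 * A := by rw [hXn]; nlinarith
  have hyn : ‖y‖ ≤ τ * nn v := by
    rw [← hnH]
    exact bd_le_nn H v
  set e' : ℂ := cexp (-X) with he'
  have hee : e' * cexp X = 1 := by rw [he', ← Complex.exp_add]; simp
  have hen : ‖e'‖ ≤ Real.exp (8 * A) := by
    rw [he', Complex.norm_exp]
    refine Real.exp_le_exp.2 ?_
    have := (Complex.abs_re_le_norm (-X))
    rw [norm_neg] at this
    exact ((le_abs_self _).trans this).trans hX8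
  set ρ : ℂ := e' * E - 1 with hρ
  have hρn : ‖ρ‖ ≤ nn v ^ 2 / 32 := by
    have e1 : ρ = e' * (E - cexp X) := by rw [hρ, mul_sub, hee]
    rw [e1, norm_mul]
    have h2 := hT x hx8
    calc ‖e'‖ * ‖E - cexp X‖ ≤ Real.exp (8 * A) * (Real.exp (-(8 * A)) * (‖x‖ ^ 2 / 128)) :=
          mul_le_mul hen h2 (norm_nonneg _) (Real.exp_pos _).le
      _ = ‖x‖ ^ 2 / 128 := by rw [← mul_assoc, ← Real.exp_add]; simp
      _ ≤ (2 * nn v) ^ 2 / 128 := by gcongr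
      _ = _ := by ring
  have hρ1 : ‖ρ‖ ≤ 1 / 2 := by nlinarith
  have hρ0 := norm_nonneg ρ
  -- `μ`
  set μ : ℂ := e' * lam T A a H v with hμ
  have hμe : μ = (e' - 1) - y * (1 + ρ) - ρ := by
    rw [hμ, lam_eq, hρ]
    ring
  have hem : ‖e' - 1‖ ≤ nn v * τ := by
    have h2 := exp_sub_one_le (-X)
    rw [norm_neg] at h2
    refine h2.trans ?_
    have h3 : A * Real.exp (8 * A) ≤ Real.sqrt Θ := Real.le_sqrt_of_sq_le hΘA
    have h4 : 10 * Real.sqrt Θ ≤ τ := by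
      rw [hτ]
      apply Real.le_sqrt_of_sq_le
      rw [mul_pow, Real.sq_sqrt (by linarith)]
      linarith
    have h5 : Real.exp ‖X‖ ≤ Real.exp (8 * A) := Real.exp_le_exp.2 hX8
    calc ‖X‖ * Real.exp ‖X‖ ≤ (A * (2 * nn v)) * Real.exp (8 * A) := by
          refine mul_le_mul ?_ h5 (Real.exp_pos _).le (by positivity)
          rw [hXn]
          exact mul_le_mul_of_nonneg_left hxn hA0.le
      _ = 2 * (A * Real.exp (8 * A)) * nn v := by ring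
      _ ≤ 2 * Real.sqrt Θ * nn v := by gcongr
      _ ≤ τ * nn v := by
          refine mul_le_mul_of_nonneg_right ?_ hv0
          have := Real.sqrt_nonneg Θ
          linarith
      _ = _ := mul_comm _ _
  have hρ2 : ‖1 + ρ‖ ≤ 3 / 2 := by
    have := norm_add_le (1:ℂ) ρ
    rw [norm_one] at this
    linarith
  have hvτ : 0 ≤ nn v * τ := by positivity
  have hμn : ‖μ‖ ≤ 4 * (nn v * τ) := by
    rw [hμe]
    refine (norm_sub_le _ _).trans ?_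
    have h2 := norm_sub_le (e' - 1) (y * (1 + ρ))
    have h3 : ‖y * (1 + ρ)‖ ≤ (τ * nn v) * (3 / 2) := by
      rw [norm_mul]
      exact mul_le_mul hyn hρ2 (norm_nonneg _) (by positivity)
    have h4 : nn v ^ 2 / 32 ≤ nn v * τ := by nlinarith
    have h5 : τ * nn v = nn v * τ := mul_comm _ _
    rw [h5] at h3
    linarith
  -- the decomposition
  set κ : ℝ := nsq a * nsq H - 1 with hκ
  obtain ⟨-, hst2, hst⟩ := sg_big hδ hΘ ha (by linarith : 25 * Θ ≤ nsq H)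
  have hκ0 : 0 < κ := by rw [hκ]; linarith
  have hκc : (κ : ℂ) ≠ 0 := by exact_mod_cast hκ0.ne'
  have hc0 := c0_big hδ hΘ hΘ4 ha ht
  rw [← hκ] at hc0
  have hmd : (fun j => e' * mdl T A Θ a H v w j) =
      fun j => ((1 + ρ) * H j + (μ * (κ : ℂ)⁻¹) * UU a H j) + (-(μ * w j)) := by
    funext j
    unfold mdl
    rw [hc0]
    beta_reduce
    rw [← hE, hρ, hμ]
    ring
  have hu : nn (fun j => (1 + ρ) * H j + (μ * (κ : ℂ)⁻¹) * UU a H j) ≤
      τ * Real.exp ((1 + 32 / δ ^ 2) / 2 * nn v ^ 2) := by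
    refine nn_le_of (by positivity) ?_
    have e9 : (τ * Real.exp ((1 + 32 / δ ^ 2) / 2 * nn v ^ 2)) ^ 2 =
        nsq H * Real.exp (((2:ℕ):ℝ) * ((1 + 32 / δ ^ 2) / 2 * nn v ^ 2)) := by
      rw [mul_pow, hτ2, ← Real.exp_nat_mul]
    rw [comb_nsq a H h1, ← hκ, norm_mul, norm_inv, Complex.norm_real,
      Real.norm_of_nonneg hκ0.le, e9]
    have h2 : ‖1 + ρ‖ ^ 2 ≤ 1 + nn v ^ 2 := by
      have h3 := norm_add_le (1:ℂ) ρ
      rw [norm_one] at h3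
      have h4 : ‖1 + ρ‖ ^ 2 ≤ (1 + ‖ρ‖) ^ 2 := pow_le_pow_left₀ (norm_nonneg _) h3 2
      nlinarith
    have h3 : κ * (‖μ‖ * κ⁻¹) ^ 2 ≤ 32 / δ ^ 2 * nn v ^ 2 := by
      have h4 : κ * (‖μ‖ * κ⁻¹) ^ 2 = ‖μ‖ ^ 2 / κ := by field_simp
      rw [h4, div_le_iff₀ hκ0]
      have h5 : ‖μ‖ ^ 2 ≤ (4 * (nn v * τ)) ^ 2 := pow_le_pow_left₀ (norm_nonneg _) hμn 2
      have h6 : (4 * (nn v * τ)) ^ 2 = 16 * nn v ^ 2 * nsq H := by
        rw [← hτ2]; ring
      have h7 : δ ^ 2 * nsq H / 2 ≤ κ := by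
        have : δ ^ 2 * nsq H ≤ nsq a * nsq H := mul_le_mul_of_nonneg_right ha ht0.le
        linarith
      have h8 : 32 / δ ^ 2 * nn v ^ 2 * (δ ^ 2 * nsq H / 2) = 16 * nn v ^ 2 * nsq H := by
        field_simp
        ring
      calc ‖μ‖ ^ 2 ≤ 16 * nn v ^ 2 * nsq H := by rw [← h6]; exact h5
        _ = 32 / δ ^ 2 * nn v ^ 2 * (δ ^ 2 * nsq H / 2) := h8.symm
        _ ≤ _ := mul_le_mul_of_nonneg_left h7 (by positivity)
    refine mul_le_mul_of_nonneg_left ?_ ht0.le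
    have h4 := Real.add_one_le_exp (((2:ℕ):ℝ) * ((1 + 32 / δ ^ 2) / 2 * nn v ^ 2))
    have h5 : ((2:ℕ):ℝ) * ((1 + 32 / δ ^ 2) / 2 * nn v ^ 2) = (1 + 32 / δ ^ 2) * nn v ^ 2 := by
      push_cast; ring
    rw [h5] at h4 ⊢
    linarith
  have hμw : nn (fun j => -(μ * w j)) ≤ τ * (4 * C2 * nn v ^ 2 + 16 * C2 * η) := by
    have e1 : nn (fun j => -(μ * w j)) = ‖μ‖ * nn w := by
      have h2 : (fun j => -(μ * w j)) = fun j => (-μ) * w j := by funext j; ring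
      rw [h2]
      unfold nn
      rw [nsq_smul, norm_neg, Real.sqrt_mul (by positivity), Real.sqrt_sq (norm_nonneg _)]
    rw [e1]
    calc ‖μ‖ * nn w ≤ (4 * (nn v * τ)) * (C2 * (nn v + η)) :=
          mul_le_mul hμn hw (nn_nonneg _) (by positivity)
      _ = τ * (4 * C2 * nn v ^ 2 + (4 * C2 * η) * nn v) := by ring
      _ ≤ τ * (4 * C2 * nn v ^ 2 + (4 * C2 * η) * 4) := by gcongr
      _ = _ := by ring
  have hsum : nn (fun j => e' * mdl T A Θ a H v w j) ≤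
      τ * Real.exp (((1 + 32 / δ ^ 2) / 2 + 4 * C2) * nn v ^ 2 + 16 * C2 * η) := by
    rw [hmd]
    refine (nn_add_le _ _).trans ((add_le_add hu hμw).trans ?_)
    rw [← mul_add]
    refine mul_le_mul_of_nonneg_left ?_ hτ0.le
    set α : ℝ := (1 + 32 / δ ^ 2) / 2 * nn v ^ 2 with hα
    set β : ℝ := 4 * C2 * nn v ^ 2 + 16 * C2 * η with hβ
    have hα0 : 0 ≤ α := by positivity
    have hβ0 : 0 ≤ β := by positivity
    have e1 : ((1 + 32 / δ ^ 2) / 2 + 4 * C2) * nn v ^ 2 + 16 * C2 * η = α + β := by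
      rw [hα, hβ]; ring
    rw [e1, Real.exp_add]
    have h2 : 1 ≤ Real.exp α := Real.one_le_exp hα0
    have h3 := Real.add_one_le_exp β
    nlinarith
  -- the weight
  have hnsq : nsq (fun j => a j + v j) = nsq a + 2 * x.re + nn v ^ 2 := by
    rw [nsq_add, ← hx, nn_sq]
  have hE2 : nsq (fun j => e' * mdl T A Θ a H v w j) =
      Real.exp (-(2 * A * x.re)) * nsq (mdl T A Θ a H v w) := by
    have h2 : nsq (fun j => e' * mdl T A Θ a H v w j) = ‖e'‖ ^ 2 * nsq (mdl T A Θ a H v w) :=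
      nsq_smul e' (mdl T A Θ a H v w)
    rw [h2, he', Complex.norm_exp, ← Real.exp_nat_mul]
    congr 2
    rw [hX]
    simp
    ring
  have hfin : nsq (fun j => e' * mdl T A Θ a H v w j) ≤
      nsq H * Real.exp (2 * (((1 + 32 / δ ^ 2) / 2 + 4 * C2) * nn v ^ 2 + 16 * C2 * η)) := by
    rw [← nn_sq, ← hτ2]
    have h2 := pow_le_pow_left₀ (nn_nonneg _) hsum 2
    rw [mul_pow, ← Real.exp_nat_mul] at h2
    exact_mod_cast h2
  rw [hE2] at hfin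
  have e3 : nsq (mdl T A Θ a H v w) * Real.exp (-(A * nsq (fun j => a j + v j))) =
      (Real.exp (-(2 * A * x.re)) * nsq (mdl T A Θ a H v w)) *
      Real.exp (-(A * nsq a) - A * nn v ^ 2) := by
    rw [hnsq]
    have h2 : -(A * (nsq a + 2 * x.re + nn v ^ 2)) = -(2 * A * x.re) +
        (-(A * nsq a) - A * nn v ^ 2) := by ring
    rw [h2, Real.exp_add]
    ring
  rw [e3]
  refine (mul_le_mul_of_nonneg_right hfin (Real.exp_pos _).le).trans ?_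
  have e4 : nsq H * Real.exp (-(A * nsq a)) * Real.exp (32 * C2 * η) =
      nsq H * Real.exp (-(A * nsq a) + 32 * C2 * η) := by rw [Real.exp_add]; ring
  rw [e4, mul_assoc (nsq H), ← Real.exp_add]
  refine mul_le_mul_of_nonneg_left (Real.exp_le_exp.2 ?_) ht0.le
  have h2 : (1 + 32 / δ ^ 2 + 8 * C2) * nn v ^ 2 ≤ A * nn v ^ 2 :=
    mul_le_mul_of_nonneg_right hA (by positivity)
  linarith

/-- the crude bound -/
theorem pw_low {δ A Θ C2 : ℝ} {T : ℕ} (hδ : 0 < δ) (hC2 : 0 ≤ C2) (hA : 0 ≤ A)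
    (hΘ : 1 / δ ^ 2 ≤ Θ) (hΘ4 : 4 ≤ Θ)
    {a H v w : Fin N → ℂ} {η : ℝ} (hη1 : η ≤ 1) (ha : δ ^ 2 ≤ nsq a) (ha4 : nsq a ≤ 4)
    (h1 : bd a H = 1) (hv : nn v ≤ 4) (hw : nn w ≤ C2 * (nn v + η)) (ht : nsq H ≤ 100 * Θ) :
    nn (mdl T A Θ a H v w) ≤ Real.exp (8 * A) * (10 * Real.sqrt Θ) +
      (1 + (1 + 40 * Real.sqrt Θ) * Real.exp (8 * A)) * (2 / δ + 5 * C2) := by
  have hv0 := nn_nonneg v
  have hΘ0 := Real.sqrt_nonneg Θ
  have hna : nn a ≤ 2 := nn_le_of (by norm_num) (by linarith)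
  have hH : nn H ≤ 10 * Real.sqrt Θ := by
    refine nn_le_of (by positivity) ?_
    rw [mul_pow, Real.sq_sqrt (by linarith)]
    linarith
  have hxn : ‖xx a v‖ ≤ 2 * nn v := by
    have h2 : ‖xx a v‖ ^ 2 ≤ (2 * nn v) ^ 2 := by
      rw [mul_pow, nn_sq]
      refine (xx_le a v).trans ?_
      exact mul_le_mul_of_nonneg_right (by linarith) (nsq_nonneg _)
    exact le_of_sq_le_sq h2 (by positivity)
  have hE : ‖ET T A (xx a v)‖ ≤ Real.exp (8 * A) := by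
    refine (ET_norm T hA _).trans (Real.exp_le_exp.2 ?_)
    nlinarith [norm_nonneg (xx a v)]
  have hy : ‖bd H v‖ ≤ 40 * Real.sqrt Θ := by
    refine (bd_le_nn H v).trans ?_
    have := mul_le_mul hH hv hv0 (by positivity)
    linarith
  have hl : ‖lam T A a H v‖ ≤ 1 + (1 + 40 * Real.sqrt Θ) * Real.exp (8 * A) := by
    rw [lam_eq]
    refine (norm_sub_le _ _).trans ?_
    rw [norm_one, norm_mul]
    have h2 := norm_add_le (1:ℂ) (bd H v)
    rw [norm_one] at h2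
    have := mul_le_mul (h2.trans (by linarith : 1 + ‖bd H v‖ ≤ 1 + 40 * Real.sqrt Θ)) hE
      (norm_nonneg _) (by positivity)
    linarith
  have e1 : mdl T A Θ a H v w = fun j => ET T A (xx a v) * H j +
      (fun j => lam T A a H v * (c0 Θ a H j + -w j)) j := by
    funext j
    unfold mdl
    ring
  have hsm : ∀ (c : ℂ) (u : Fin N → ℂ), nn (fun j => c * u j) = ‖c‖ * nn u := fun c u => by
    unfold nn
    rw [nsq_smul, Real.sqrt_mul (by positivity), Real.sqrt_sq (norm_nonneg _)]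
  rw [e1]
  refine (nn_add_le _ _).trans (add_le_add ?_ ?_)
  · rw [hsm]
    exact mul_le_mul hE hH (nn_nonneg _) (Real.exp_pos _).le
  · rw [hsm]
    refine mul_le_mul hl ?_ (nn_nonneg _) (by positivity)
    refine (nn_add_le _ _).trans (add_le_add (c0_nn hδ hΘ hΘ4 ha h1) ?_)
    have e2 : nn (fun j => -w j) = nn w := by
      unfold nn nsq
      simp
    rw [e2]
    refine hw.trans ?_
    nlinarith

end Pool.Agent.K9h23.Big
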