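import Mathlib
import Pool.Agent.K9h23.Big.Pw
import Pool.Agent.K9h23.Mix.Qua

/-!
Holomorphic replacements of the pieces of the step across a large band.
-/

set_option autoImplicit false

open MeasureTheory Set Complex Metric
open scoped Real

namespace Pool.Agent.K9h23.Big

open Pool.Agent.K9h23.Hom Pool.Agent.K9h23.Bnd Pool.Agent.K9h23.Mix
open Pool.Agent.K9h23.Lac (nsq nsq_nonneg nsq_c nn nn_nonneg nn_sq nn_add_le le_nsq nsq_smul' bd
  bd_le_nn comp_le_nn nsq_conj nn_le_comp xx UU th sg th_mem)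

variable {m N : ℕ}

/-- the set of triples `(a, H, v)` -/
def TL (N : ℕ) (δ B : ℝ) : Set ((Fin N → ℂ) × (Fin N → ℂ) × (Fin N → ℂ)) :=
  {x | δ ≤ nn x.1 ∧ nsq x.1 ≤ 4 ∧ nn x.2.1 ≤ B ∧ nn x.2.2 ≤ 4}

/-- the pieces which can be replaced -/
structure Ql (N : ℕ) (δ B : ℝ) (κ : ℕ) (Ψ : (Fin N → ℂ) → (Fin N → ℂ) → (Fin N → ℂ) → ℂ) :
    Prop where
  bl : BL (TL N δ B) (fun x => Ψ x.1 x.2.1 x.2.2)
  gr : ∀ (a H : Fin N → ℂ) {m l u : ℕ} (v : E m → Fin N → ℂ), l ≤ u →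
    (∀ j, Gr l u (fun z => v z j)) → Gr l (κ * u) (fun z => Ψ a H (v z))
  ms : ∀ {m : ℕ} {a H v : E m → Fin N → ℂ}, (∀ j, Measurable (fun x => a x j)) →
    (∀ j, Measurable (fun x => H x j)) → (∀ j, Measurable (fun x => v x j)) →
    Measurable (fun x => Ψ (a x) (H x) (v x))

/-- the hypotheses of a large stage -/
structure Sl (δ B Λ : ℝ) (D l u : ℕ) (F H Q : E m → Fin N → ℂ) : Prop where
  D1 : 1 ≤ D
  l2 : 2 ≤ l
  Dl : D ≤ l
  lu : l ≤ u
  Fg : ∀ j, Gr 0 D (fun z => F z j)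
  Qg : ∀ j, Gr l u (fun z => Q z j)
  Fb : ∀ z, ‖z‖ ≤ 1 → δ ≤ nn (F z) ∧ nsq (F z) ≤ 4
  Qb : ∀ z, ‖z‖ ≤ 1 → nn (Q z) ≤ 4
  Hl : ∀ j, Lc B (Λ * Real.sqrt D) (fun z => H z j)
  Hb : ∀ z, ‖z‖ ≤ 1 → nn (H z) ≤ B

section

variable {δ B : ℝ}

theorem LBa (j : Fin N) : BL (TL N δ B) (fun x => x.1 j) := by
  refine ⟨2, by norm_num, fun x hx => ?_, fun x _ y _ => ?_⟩
  · have h1 := le_nsq x.1 j
    have h2 : ‖x.1 j‖ ^ 2 ≤ 2 ^ 2 := by
      have := hx.2.1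
      linarith
    exact le_of_sq_le_sq h2 (by norm_num)
  · have h1 : ‖x.1 j - y.1 j‖ ≤ dist x y := by
      rw [← Pi.sub_apply]
      refine (norm_le_pi_norm _ j).trans ?_
      rw [← dist_eq_norm]
      exact le_max_left _ _
    have := dist_nonneg (x := x) (y := y)
    linarith

theorem LBH (hB : 1 ≤ B) (j : Fin N) : BL (TL N δ B) (fun x => x.2.1 j) := by
  refine ⟨B, by linarith, fun x hx => (comp_le_nn x.2.1 j).trans hx.2.2.1, fun x _ y _ => ?_⟩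
  have h1 : ‖x.2.1 j - y.2.1 j‖ ≤ dist x y := by
    rw [← Pi.sub_apply]
    refine (norm_le_pi_norm _ j).trans ?_
    rw [← dist_eq_norm]
    exact (le_max_left _ _).trans (le_max_right _ _)
  have := dist_nonneg (x := x) (y := y)
  nlinarith

theorem LBv (j : Fin N) : BL (TL N δ B) (fun x => x.2.2 j) := by
  refine ⟨4, by norm_num, fun x hx => (comp_le_nn x.2.2 j).trans hx.2.2.2, fun x _ y _ => ?_⟩
  have h1 : ‖x.2.2 j - y.2.2 j‖ ≤ dist x y := by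
    rw [← Pi.sub_apply]
    refine (norm_le_pi_norm _ j).trans ?_
    rw [← dist_eq_norm]
    exact (le_max_right _ _).trans (le_max_right _ _)
  have := dist_nonneg (x := x) (y := y)
  linarith

theorem BL_pow {X : Type*} [PseudoMetricSpace X] {T : Set X} {u : X → ℂ} (h : BL T u) (k : ℕ) :
    BL T (fun x => u x ^ k) := by
  induction k with
  | zero => exact (BL.const 1).congr fun x => by simp
  | succ k ih => exact (ih.mul h).congr fun x => by rw [pow_succ]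

theorem LBxx : BL (TL N δ B) (fun x => xx x.1 x.2.2) := BL_xx3 LBa LBv

theorem LBbd (hB : 1 ≤ B) : BL (TL N δ B) (fun x => bd x.2.1 x.2.2) := BL_bd3 (LBH hB) LBv

theorem LBna : BL (TL N δ B) (fun x => (nsq x.1 : ℂ)) := BL_nsq3 LBa

theorem LBnH (hB : 1 ≤ B) : BL (TL N δ B) (fun x => (nsq x.2.1 : ℂ)) := BL_nsq3 (LBH hB)

theorem LBth (hB : 1 ≤ B) {Θ : ℝ} (hΘ : 4 ≤ Θ) :
    BL (TL N δ B) (fun x => (th Θ (nsq x.2.1) : ℂ)) := BL_rcomp (LBnH hB) (th_lip hΘ)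

theorem LBET (T : ℕ) (A : ℝ) : BL (TL N δ B) (fun x => ET T A (xx x.1 x.2.2)) := by
  refine (BL.sum (Finset.range (T + 1)) (u := fun k x => ((A : ℂ) * xx x.1 x.2.2) ^ k *
    ((k.factorial : ℂ))⁻¹) fun k _ => ?_).congr fun x => ?_
  · exact (BL_pow ((BL.const (A : ℂ)).mul LBxx) k).mul (BL.const _)
  · unfold ET
    exact Finset.sum_congr rfl fun k _ => by rw [div_eq_mul_inv]

theorem LBsg (hB : 1 ≤ B) :
    BL (TL N δ B) (fun x => ((sg (nsq x.1) (nsq x.2.1) : ℝ) : ℂ)⁻¹) := by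
  have h1 : BL (TL N δ B) (fun x => ((nsq x.1 * nsq x.2.1 : ℝ) : ℂ)) :=
    (LBna.mul (LBnH hB)).congr fun x => by push_cast; rfl
  have h2 : BL (TL N δ B) (fun x => (sg (nsq x.1) (nsq x.2.1) : ℂ)) :=
    BL_rcomp h1 (φ := fun r => max (r - 1) 1) sg_lip
  refine h2.inv one_pos fun x _ => ?_
  have h3 : 1 ≤ sg (nsq x.1) (nsq x.2.1) := le_max_right _ _
  rw [Complex.norm_real, Real.norm_of_nonneg (by linarith)]
  exact h3

theorem LBU (hB : 1 ≤ B) (j : Fin N) : BL (TL N δ B) (fun x => UU x.1 x.2.1 j) :=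
  ((LBnH hB).mul (LBa j).conj).sub (LBH hB j)

theorem LBc0 (hδ : 0 < δ) (hB : 1 ≤ B) {Θ : ℝ} (hΘ : 4 ≤ Θ) (j : Fin N) :
    BL (TL N δ B) (fun x => c0 Θ x.1 x.2.1 j) := by
  have h1 : BL (TL N δ B) (fun x => ((nsq x.1 : ℝ) : ℂ)⁻¹) := by
    refine LBna.inv (c := δ ^ 2) (by positivity) fun x hx => ?_
    rw [Complex.norm_real, Real.norm_of_nonneg (nsq_nonneg _), ← nn_sq]
    exact pow_le_pow_left₀ hδ.le hx.1 2
  exact ((LBth hB hΘ).mul ((LBsg hB).mul (LBU hB j))).add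
    (((BL.const 1).sub (LBth hB hΘ)).mul (h1.mul (LBa j).conj))

theorem LBlam (hB : 1 ≤ B) (T : ℕ) (A : ℝ) :
    BL (TL N δ B) (fun x => lam T A x.1 x.2.1 x.2.2) := by
  have h1 := (LBET (N := N) (δ := δ) (B := B) T A).sub (BL.const 1)
  have h2 := LBbd (N := N) (δ := δ) hB
  exact ((h2.add h1).add (h2.mul h1)).neg

end

section meas

variable {α : Type*} [MeasurableSpace α] {a H v : α → Fin N → ℂ}

theorem mET (T : ℕ) (A : ℝ) {u : α → ℂ} (hu : Measurable u) :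
    Measurable (fun x => ET T A (u x)) := by
  unfold ET
  exact Finset.measurable_fun_sum _ fun k _ => ((measurable_const.mul hu).pow_const k).div_const _

theorem mlam (T : ℕ) (A : ℝ) (ha : ∀ j, Measurable (fun x => a x j))
    (hH : ∀ j, Measurable (fun x => H x j)) (hv : ∀ j, Measurable (fun x => v x j)) :
    Measurable (fun x => lam T A (a x) (H x) (v x)) := by
  unfold lam
  have h1 : Measurable (fun x => ET T A (xx (a x) (v x)) - 1) :=
    (mET T A (mxx ha hv)).sub measurable_const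
  have h2 := mbd hH hv
  exact ((h2.add h1).add (h2.mul h1)).neg

theorem mc0 (Θ : ℝ) (j : Fin N) (ha : ∀ j, Measurable (fun x => a x j))
    (hH : ∀ j, Measurable (fun x => H x j)) : Measurable (fun x => c0 Θ (a x) (H x) j) := by
  unfold c0
  have h3 : Measurable (fun x => (((sg (nsq (a x)) (nsq (H x)) : ℝ) : ℂ))⁻¹) :=
    (Complex.measurable_ofReal.comp (msg (mnH ha) (mnH hH))).inv
  have h4 : Measurable (fun x => UU (a x) (H x) j) := by
    unfold UU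
    exact ((Complex.measurable_ofReal.comp (mnH hH)).mul
      (Complex.continuous_conj.measurable.comp (ha j))).sub (hH j)
  have h5 : Measurable (fun x => ((nsq (a x) : ℝ) : ℂ)⁻¹) :=
    (Complex.measurable_ofReal.comp (mnH ha)).inv
  exact ((mth Θ (mnH hH)).mul (h3.mul h4)).add ((measurable_const.sub (mth Θ (mnH hH))).mul
    (h5.mul (Complex.continuous_conj.measurable.comp (ha j))))

end meas

section gr

variable {l u : ℕ} {v : E m → Fin N → ℂ}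

theorem gr_ET (T : ℕ) (A : ℝ) (hlu : l ≤ u) (hv : ∀ j, Gr l u (fun z => v z j))
    (a : Fin N → ℂ) : Gr l ((T + 1) * u) (fun z => ET T A (xx a (v z)) - 1) := by
  have h1 := gr_xx hv a
  refine (Gr.sum (Finset.range T) (R := fun k z => ((A : ℂ) ^ (k + 1) *
    (((k + 1).factorial : ℕ) : ℂ)⁻¹) * (xx a (v z)) ^ (k + 1)) fun k hk => ?_).congr fun z => ?_
  · rw [Finset.mem_range] at hk
    refine ((h1.pow (k + 1)).smul _).mono ?_ ?_
    · exact Nat.le_mul_of_pos_left _ (Nat.succ_pos k)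
    · exact Nat.mul_le_mul_right _ (by omega)
  · unfold ET
    rw [Finset.sum_range_succ']
    simp only [pow_zero, Nat.factorial_zero, Nat.cast_one, div_one, add_sub_cancel_right]
    refine Finset.sum_congr rfl fun k _ => ?_
    rw [mul_pow, div_eq_mul_inv]
    ring

theorem gr_lam (T : ℕ) (A : ℝ) (hlu : l ≤ u) (hv : ∀ j, Gr l u (fun z => v z j))
    (a H : Fin N → ℂ) : Gr l ((T + 2) * u) (fun z => lam T A a H (v z)) := by
  have h1 := gr_ET T A hlu hv a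
  have h2 := gr_bd hv H
  have h3 := (((h2.mono (le_refl l) (show u ≤ (T + 2) * u from Nat.le_mul_of_pos_left _
    (by omega))).add (h1.mono (le_refl l) (show (T + 1) * u ≤ (T + 2) * u from
    Nat.mul_le_mul_right _ (by omega)))).add
    ((h2.mul h1).mono (show l ≤ l + l by omega) (show u + (T + 1) * u ≤ (T + 2) * u by
      have : (T + 2) * u = u + (T + 1) * u := by ring
      omega))).neg
  exact h3

end gr

/-- the first piece -/
noncomputable def q1 (T : ℕ) (A : ℝ) (j : Fin N) (a H v : Fin N → ℂ) : ℂ :=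
  (ET T A (xx a v) - 1) * H j

/-- the second piece -/
noncomputable def q2 (T : ℕ) (A Θ : ℝ) (j : Fin N) (a H v : Fin N → ℂ) : ℂ :=
  lam T A a H v * c0 Θ a H j

theorem Ql_q1 {δ B : ℝ} (hB : 1 ≤ B) (T : ℕ) (A : ℝ) (j : Fin N) :
    Ql N δ B (T + 2) (q1 T A j) := by
  refine ⟨?_, fun a H m l u v hlu hv => ?_, fun ha hH hv => ?_⟩
  · exact ((LBET T A).sub (BL.const 1)).mul (LBH hB j)
  · refine (((gr_ET T A hlu hv a).mono le_rfl (Nat.mul_le_mul_right _ (by omega))).smul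
      (H j)).congr fun z => ?_
    unfold q1
    ring
  · exact ((mET T A (mxx ha hv)).sub measurable_const).mul (hH j)

theorem Ql_q2 {δ B : ℝ} (hδ : 0 < δ) (hB : 1 ≤ B) (T : ℕ) (A : ℝ) {Θ : ℝ} (hΘ : 4 ≤ Θ)
    (j : Fin N) : Ql N δ B (T + 2) (q2 T A Θ j) := by
  refine ⟨?_, fun a H m l u v hlu hv => ?_, fun ha hH hv => ?_⟩
  · exact (LBlam hB T A).mul (LBc0 hδ hB hΘ j)
  · refine ((gr_lam T A hlu hv a H).smul (c0 Θ a H j)).congr fun z => ?_
    unfold q2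
    ring
  · exact (mlam T A ha hH hv).mul (mc0 Θ j ha hH)

theorem Sl.mem {δ B Λ : ℝ} {D l u : ℕ} {F H Q : E m → Fin N → ℂ} (S : Sl δ B Λ D l u F H Q)
    {z z' : E m} (hz : ‖z‖ ≤ 1) (hz' : ‖z'‖ ≤ 1) : (F z, H z, Q z') ∈ TL N δ B :=
  ⟨(S.Fb z hz).1, (S.Fb z hz).2, S.Hb z hz, S.Qb z' hz'⟩

theorem Sl.Fj {δ B Λ : ℝ} {D l u : ℕ} {F H Q : E m → Fin N → ℂ} (S : Sl δ B Λ D l u F H Q)
    {z : E m} (hz : ‖z‖ ≤ 1) (j : Fin N) : ‖F z j‖ ≤ 2 := by
  have h1 := le_nsq (F z) j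
  have h2 := (S.Fb z hz).2
  have h3 : ‖F z j‖ ^ 2 ≤ 2 ^ 2 := by linarith
  exact le_of_sq_le_sq h3 (by norm_num)

theorem exists_dy' {a x : ℕ} (ha : 1 ≤ a) (hax : a < x) : ∃ p : ℕ, x ≤ 2 ^ p * a ∧
    2 ^ p * a ≤ 2 * x := by
  have hex : ∃ p : ℕ, x ≤ 2 ^ p * a :=
    ⟨x, (Nat.lt_two_pow_self.le).trans (Nat.le_mul_of_pos_right _ ha)⟩
  classical
  refine ⟨Nat.find hex, Nat.find_spec hex, ?_⟩
  have h1 : Nat.find hex ≠ 0 := by
    intro h0
    have := Nat.find_spec hex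
    rw [h0] at this
    omega
  obtain ⟨p, hp⟩ := Nat.exists_eq_succ_of_ne_zero h1
  have h2 := Nat.find_min hex (m := p) (by omega)
  rw [hp, Nat.succ_eq_add_one, pow_succ]
  push Not at h2
  have : 2 ^ p * 2 * a = 2 * (2 ^ p * a) := by ring
  omega

/-- **The replacement.** -/
theorem quantL (m N : ℕ) {δ B : ℝ} {κ : ℕ} (hκ : 1 ≤ κ)
    {Ψ : (Fin N → ℂ) → (Fin N → ℂ) → (Fin N → ℂ) → ℂ} (hΨ : Ql N δ B κ Ψ) :
    ∃ b : ℝ, 0 ≤ b ∧ (∀ x ∈ TL N δ B, ‖Ψ x.1 x.2.1 x.2.2‖ ≤ b) ∧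
      (∀ x ∈ TL N δ B, ∀ y ∈ TL N δ B,
        ‖Ψ x.1 x.2.1 x.2.2 - Ψ y.1 y.2.1 y.2.2‖ ≤ b * dist x y) ∧
      ∀ Λ : ℝ, 0 ≤ Λ → ∃ C : ℝ, 0 ≤ C ∧ ∀ (D l u : ℕ) (F H Q : E m → Fin N → ℂ),
        Sl δ B Λ D l u F H Q → ∃ R : E m → ℂ, Gr 0 (4 * κ * u) R ∧
        ∀ z, ‖z‖ ≤ 1 → ‖R z - Ψ (F z) (H z) (Q z)‖ ≤ C * (Real.sqrt D / Real.sqrt l) := by
  obtain ⟨b, hb, hb1, hb2⟩ := hΨ.bl
  refine ⟨b, hb, hb1, hb2, fun Λ hΛ => ?_⟩
  have hCT := CT_pos m
  refine ⟨4 * (CT m * 2 ^ (m + 1)) * (b * (24 + Λ) * 2), by positivity,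
    fun D l u F H Q S => ?_⟩
  have hlu := S.lu
  have hD1 := S.D1
  have hl2 := S.l2
  have hDl := S.Dl
  have hl0 : (0:ℝ) < l := by exact_mod_cast (by omega : 0 < l)
  have hsl : 0 < Real.sqrt l := Real.sqrt_pos.2 hl0
  set a : ℕ := l / 2 with ha
  have ha1 : 1 ≤ a := by omega
  have ha2 : 2 * a ≤ l := by omega
  have ha3 : l ≤ 3 * a := by omega
  have ha0 : (0:ℝ) < a := by exact_mod_cast ha1
  have hsa : 1 / Real.sqrt a ≤ 2 / Real.sqrt l := by
    rw [div_le_div_iff₀ (Real.sqrt_pos.2 ha0) hsl, one_mul]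
    have h3 : (l:ℝ) ≤ 4 * a := by
      have : (l:ℝ) ≤ 3 * a := by exact_mod_cast ha3
      linarith
    have h4 : Real.sqrt (4 * a) = 2 * Real.sqrt a := by
      rw [Real.sqrt_mul (by norm_num)]
      congr 1
      rw [show (4:ℝ) = 2 ^ 2 by norm_num, Real.sqrt_sq (by norm_num)]
    rw [← h4]
    exact Real.sqrt_le_sqrt h3
  have hκu : u ≤ κ * u := Nat.le_mul_of_pos_left _ hκ
  obtain ⟨p, hp1, hp2⟩ := exists_dy' (a := a) (x := κ * u) ha1 (by omega)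
  have haM : a ≤ 2 ^ p * a := Nat.le_mul_of_pos_left _ (by positivity)
  have hFm : ∀ j, Measurable (fun w => F w j) := fun j => (S.Fg j).diff.continuous.measurable
  have hQm : ∀ j, Measurable (fun w => Q w j) := fun j => (S.Qg j).diff.continuous.measurable
  have hHm : ∀ j, Measurable (fun w => H w j) := fun j => (S.Hl j).meas
  have hX : Bm b (fun w => Ψ (F w) (H w) (Q w)) :=
    ⟨hΨ.ms hFm hHm hQm, fun w hw => hb1 _ (S.mem hw hw)⟩
  refine ⟨TO a (2 ^ p * a) (fun w => Ψ (F w) (H w) (Q w)), ?_, fun z hz => ?_⟩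
  · refine (TO_gr (s := 0) ha1 haM hX fun k _ hk => absurd hk (Nat.not_lt_zero _)).mono le_rfl ?_
    have : 4 * κ * u = 2 * (2 * (κ * u)) := by ring
    omega
  have hY : Bm b (fun w => Ψ (F z) (H z) (Q w)) :=
    ⟨hΨ.ms (fun j => measurable_const) (fun j => measurable_const) hQm,
      fun w hw => hb1 _ (S.mem hz hw)⟩
  have h1 : TO a (2 ^ p * a) (fun w => Ψ (F w) (H w) (Q w)) z - Ψ (F z) (H z) (Q z) =
      TO a (2 ^ p * a) (fun w => Ψ (F w) (H w) (Q w) - Ψ (F z) (H z) (Q w)) z := by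
    have e1 : (fun w => Ψ (F w) (H w) (Q w) - Ψ (F z) (H z) (Q w)) =
        fun w => Ψ (F w) (H w) (Q w) + (-1) * Ψ (F z) (H z) (Q w) := by
      funext w; ring
    rw [e1, TO_add hX (hY.smul _) ha1 haM, TO_smul,
      TO_repr ha1 haM ha2 hp1 (hΨ.gr (F z) (H z) Q hlu S.Qg)]
    ring
  rw [h1]
  have hXY : Bm (b + b) (fun w => Ψ (F w) (H w) (Q w) - Ψ (F z) (H z) (Q w)) :=
    ⟨hX.meas.sub hY.meas, fun w hw => (norm_sub_le _ _).trans
      (add_le_add (hX.bd w hw) (hY.bd w hw))⟩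
  have h2 := TO_dy_bound ha1 p hXY (b1 := b * (24 + Λ) * Real.sqrt D)
    (by positivity) hz
    (fun v hv => by
      have hs0' : 0 ≤ Real.sqrt D * Real.sqrt ‖1 - (inner ℂ v z : ℂ)‖ := by positivity
      have h3 := hb2 _ (S.mem (z := v) (z' := v) hv.le hv.le) _
        (S.mem (z := z) (z' := v) hz hv.le)
      refine h3.trans ?_
      have h4 : dist ((F v, H v, Q v) : (Fin N → ℂ) × (Fin N → ℂ) × (Fin N → ℂ))
          (F z, H z, Q v) ≤ (24 + Λ) * Real.sqrt D * Real.sqrt ‖1 - (inner ℂ v z : ℂ)‖ := by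
        refine max_le ?_ (max_le ?_ ?_)
        · refine pi_dist_le (by positivity) fun i => ?_
          rw [norm_sub_rev]
          refine ((S.Fg i).lip hD1 (by norm_num : (0:ℝ) ≤ 2) (fun z hz => S.Fj hz i) hv hz).trans ?_
          rw [Real.sqrt_mul (Nat.cast_nonneg _)]
          nlinarith
        · refine pi_dist_le (by positivity) fun i => ?_
          refine ((S.Hl i).lip v z hv hz).trans ?_
          nlinarith
        · simp only [dist_self]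
          positivity
      calc b * _ ≤ b * ((24 + Λ) * Real.sqrt D * Real.sqrt ‖1 - (inner ℂ v z : ℂ)‖) :=
            mul_le_mul_of_nonneg_left h4 hb
        _ = _ := by ring)
  refine h2.trans ?_
  rw [div_eq_mul_one_div (b * (24 + Λ) * Real.sqrt D)]
  calc 4 * (CT m * 2 ^ (m + 1)) * (b * (24 + Λ) * Real.sqrt D * (1 / Real.sqrt a)) ≤
        4 * (CT m * 2 ^ (m + 1)) * (b * (24 + Λ) * Real.sqrt D * (2 / Real.sqrt l)) := by
        refine mul_le_mul_of_nonneg_left (mul_le_mul_of_nonneg_left hsa (by positivity))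
          (by positivity)
    _ = _ := by ring

end Pool.Agent.K9h23.Big
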