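import Mathlib
import Pool.Agent.K9h23.Big.Trl
import Pool.Agent.K9h23.Mix.Lst

/-!
The stage for a large band without loss.
-/

set_option autoImplicit false

open MeasureTheory Set Complex Metric
open scoped Real

namespace Pool.Agent.K9h23.Big

open Pool.Agent.K9h23.Hom Pool.Agent.K9h23.Bnd Pool.Agent.K9h23.Mix
open Pool.Agent.K9h23.Lac (nsq nsq_nonneg nsq_c nn nn_nonneg nn_sq nn_add_le le_nsq nsq_smul' bd
  bd_le_nn comp_le_nn nsq_conj nn_le_comp xx UU th sg th_mem nn_le_of)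

variable {m N : ℕ}

/-- the replacement of finitely many pieces -/
theorem quantL_fam {ι : Type*} [Fintype ι] (m : ℕ) {N : ℕ} {δ B : ℝ} {κ : ℕ} (hκ : 1 ≤ κ)
    {Ψ : ι → (Fin N → ℂ) → (Fin N → ℂ) → (Fin N → ℂ) → ℂ} (hΨ : ∀ i, Ql N δ B κ (Ψ i)) :
    ∃ b : ℝ, 0 ≤ b ∧ (∀ i, ∀ x ∈ TL N δ B, ‖Ψ i x.1 x.2.1 x.2.2‖ ≤ b) ∧
      (∀ i, ∀ x ∈ TL N δ B, ∀ y ∈ TL N δ B,
        ‖Ψ i x.1 x.2.1 x.2.2 - Ψ i y.1 y.2.1 y.2.2‖ ≤ b * dist x y) ∧
      ∀ Λ : ℝ, 0 ≤ Λ → ∃ C : ℝ, 0 ≤ C ∧ ∀ (D l u : ℕ) (F H Q : E m → Fin N → ℂ),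
        Sl δ B Λ D l u F H Q → ∃ R : ι → E m → ℂ, (∀ i, Gr 0 (4 * κ * u) (R i)) ∧
        ∀ i z, ‖z‖ ≤ 1 → ‖R i z - Ψ i (F z) (H z) (Q z)‖ ≤
          C * (Real.sqrt D / Real.sqrt l) := by
  choose b hb h1 h2 h3 using fun i => quantL m N hκ (hΨ i)
  have hle : ∀ i, b i ≤ ∑ i, b i := fun i =>
    Finset.single_le_sum (f := b) (fun i _ => hb i) (Finset.mem_univ i)
  refine ⟨∑ i, b i, Finset.sum_nonneg fun i _ => hb i, fun i x hx => (h1 i x hx).trans (hle i),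
    fun i x hx y hy => (h2 i x hx y hy).trans (mul_le_mul_of_nonneg_right (hle i) dist_nonneg),
    fun Λ hΛ => ?_⟩
  choose C hC h4 using fun i => h3 i Λ hΛ
  have hCle : ∀ i, C i ≤ ∑ i, C i := fun i =>
    Finset.single_le_sum (f := C) (fun i _ => hC i) (Finset.mem_univ i)
  refine ⟨∑ i, C i, Finset.sum_nonneg fun i _ => hC i, fun D l u F H Q S => ?_⟩
  choose R hR1 hR2 using fun i => h4 i D l u F H Q S
  exact ⟨R, hR1, fun i z hz => (hR2 i z hz).trans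
    (mul_le_mul_of_nonneg_right (hCle i) (by positivity))⟩

theorem bd_mdl {T : ℕ} {A Θ δ : ℝ} (hδ : 0 < δ) (hΘ : 1 / δ ^ 2 ≤ Θ) (hΘ4 : 4 ≤ Θ)
    {a H v w : Fin N → ℂ} (ha : δ ^ 2 ≤ nsq a) (h1 : bd a H = 1) :
    bd (fun j => a j + v j) (mdl T A Θ a H v w) =
      1 + lam T A a H v * (bd v (c0 Θ a H) - bd (fun j => a j + v j) w) := by
  have e1 : bd (fun j => a j + v j) (mdl T A Θ a H v w) =
      ET T A (xx a v) * (bd a H + bd H v) + lam T A a H v * (bd a (c0 Θ a H) +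
        bd v (c0 Θ a H) - bd (fun j => a j + v j) w) := by
    unfold bd mdl
    rw [← Finset.sum_add_distrib, ← Finset.sum_add_distrib, ← Finset.sum_sub_distrib,
      Finset.mul_sum, Finset.mul_sum, ← Finset.sum_add_distrib]
    exact Finset.sum_congr rfl fun j _ => by ring
  rw [e1, h1, c0_bd hδ hΘ hΘ4 ha h1, lam_eq]
  ring

/-- **The large stage.** -/
theorem bst (m N K : ℕ) (hK : 1 ≤ K) {δ : ℝ} (hδ : 0 < δ) : ∃ C2 : ℝ, 1 ≤ C2 ∧
    ∀ (T : ℕ) (A Θ : ℝ), 1 / δ ^ 2 ≤ Θ → 4 ≤ Θ →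
    ∀ B : ℝ, 1 ≤ B → ∃ b : ℝ, 1 ≤ b ∧ ∀ Λ : ℝ, 0 ≤ Λ → ∃ C : ℝ, 1 ≤ C ∧
      ∀ (D l : ℕ) (F H Q : E m → Fin N → ℂ), Bz δ 2 K D l F Q →
      (∀ j, Lc B (Λ * Real.sqrt D) (fun z => H z j)) → (∀ z, ‖z‖ ≤ 1 → nn (H z) ≤ B) →
      (∀ z, ‖z‖ ≤ 1 → bd (F z) (H z) = 1) →
      C * (Real.sqrt D / Real.sqrt l) ≤ 1 → ∃ H' : E m → Fin N → ℂ,
      (∀ j, Lc b (b * (Real.sqrt l + Λ * Real.sqrt D)) (fun z => H' z j)) ∧
      (∀ z, ‖z‖ ≤ 1 → bd (fun j => F z j + Q z j) (H' z) = 1) ∧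
      ∀ z, ‖z‖ ≤ 1 → ∃ w : Fin N → ℂ, nn w ≤ C2 * (nn (Q z) + Real.sqrt D / Real.sqrt l) ∧
        ∀ j, ‖H' z j - mdl T A Θ (F z) (H z) (Q z) w j‖ ≤ C * (Real.sqrt D / Real.sqrt l) ∧
          ‖H' z j - H z j‖ ≤ C * (nn (Q z) + Real.sqrt D / Real.sqrt l) := by
  have hN0 : (0:ℝ) ≤ N := Nat.cast_nonneg N
  have hK0 : (0:ℝ) ≤ K := Nat.cast_nonneg K
  obtain ⟨C1, hC1, hst⟩ := bstage2 m N K hK hδ (A := 2) (by norm_num)
  have hC10 : 0 ≤ C1 := by linarith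
  refine ⟨1 + (N + 1) * (N * (2 / δ * C1)), by
    have : 0 ≤ (N + 1) * (N * (2 / δ * C1)) := by positivity
    linarith, fun T A Θ hΘ hΘ4 B hB => ?_⟩
  have hB0 : 0 ≤ B := by linarith
  obtain ⟨b0, hb0, hq1, hq2, hq3⟩ := quantL_fam (δ := δ) (B := B) (κ := T + 2)
    (ι := Fin N ⊕ Fin N) m (N := N) (by omega) (Ψ := Sum.elim (q1 T A) (q2 T A Θ))
    (by
      rintro (j | j)
      · exact Ql_q1 hB T A j
      · exact Ql_q2 hδ hB T A hΘ4 j)
  obtain ⟨bl, hbl, hbl1, -⟩ := LBlam (N := N) (δ := δ) hB T A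
  have hq11 : ∀ j, ∀ x ∈ TL N δ B, ‖q1 T A j x.1 x.2.1 x.2.2‖ ≤ b0 := fun j => hq1 (Sum.inl j)
  have hq12 : ∀ j, ∀ x ∈ TL N δ B, ‖q2 T A Θ j x.1 x.2.1 x.2.2‖ ≤ b0 := fun j =>
    hq1 (Sum.inr j)
  have hq21 : ∀ j, ∀ x ∈ TL N δ B, ∀ y ∈ TL N δ B,
      ‖q1 T A j x.1 x.2.1 x.2.2 - q1 T A j y.1 y.2.1 y.2.2‖ ≤ b0 * dist x y :=
    fun j => hq2 (Sum.inl j)
  have hq22 : ∀ j, ∀ x ∈ TL N δ B, ∀ y ∈ TL N δ B,
      ‖q2 T A Θ j x.1 x.2.1 x.2.2 - q2 T A Θ j y.1 y.2.1 y.2.2‖ ≤ b0 * dist x y :=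
    fun j => hq2 (Sum.inr j)
  set β : ℝ := b0 + 1 with hβ
  have hβ0 : 0 ≤ β := by linarith
  set σ : ℝ := 12 * β * Real.sqrt ((4 * (T + 2) * K : ℕ) : ℝ) with hσ
  have hσ0 : 0 ≤ σ := by positivity
  set B1 : ℝ := B + β + β + N * (β * C1) with hB1
  have hB10 : 0 ≤ B1 := by positivity
  set k1 : ℝ := 8 * N * B1 + 2 with hk1
  have hk10 : 0 ≤ k1 := by positivity
  set k2 : ℝ := (8 * N * B1 + 2) * (2 * σ + N * (β * C1 + C1 * σ)) +
    96 * N * B1 ^ 2 * Real.sqrt K with hk2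
  have hk20 : 0 ≤ k2 := by positivity
  refine ⟨1 + 2 * B1 + k1 + k2, by linarith, fun Λ hΛ => ?_⟩
  obtain ⟨C0, hC0, hq⟩ := hq3 Λ hΛ
  set κ1 : ℝ := 2 + N * C1 with hκ1
  have hκ10 : 0 ≤ κ1 := by positivity
  set κ2 : ℝ := 2 * N * κ1 * C0 + bl * (N * (2 / δ * C1)) with hκ2
  have hκ20 : 0 ≤ κ2 := by positivity
  set C : ℝ := 1 + C0 + 2 * κ2 + 2 * B1 * κ2 + κ1 * C0 + 2 * b0 + N * (b0 * C1) with hC
  have t1 : 0 ≤ 2 * B1 * κ2 := by positivity
  have t2 : 0 ≤ κ1 * C0 := by positivity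
  have t3 : 0 ≤ N * (b0 * C1) := by positivity
  have hC1' : 1 ≤ C := by rw [hC]; linarith
  refine ⟨C, hC1', fun D l F H Q S hHl hHb hbd hsm => ?_⟩
  obtain ⟨M, hMl, hMb⟩ := hst D l F Q S
  have hl2 := S.l2
  have hDl := S.Dl
  have hKl1 : 1 ≤ K * l := Nat.mul_pos hK (by omega)
  have hlK : l ≤ K * l := Nat.le_mul_of_pos_left _ hK
  have hFn : ∀ z, ‖z‖ ≤ 1 → nsq (F z) ≤ 4 := fun z hz => by
    rw [← nn_sq]
    have := (S.Fb z hz).2
    nlinarith [nn_nonneg (F z)]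
  have hFd : ∀ z, ‖z‖ ≤ 1 → δ ^ 2 ≤ nsq (F z) := fun z hz => by
    rw [← nn_sq]
    exact pow_le_pow_left₀ hδ.le (S.Fb z hz).1 2
  have hQ4 : ∀ z, ‖z‖ ≤ 1 → nn (Q z) ≤ 4 := fun z hz => by
    have h2 := nn_add_le (fun j => F z j + Q z j) (fun j => -F z j)
    have e1 : (fun j => F z j + Q z j + -F z j) = Q z := by funext j; ring
    have e2 : nn (fun j => -F z j) = nn (F z) := by unfold nn nsq; simp
    rw [e1, e2] at h2
    have := (S.Fb z hz).2
    have := (S.Gb z hz).2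
    linarith
  have hSl : Sl δ B Λ D l (K * l) F H Q := ⟨S.D1, S.l2, S.Dl, hlK, S.Fg, S.Qg,
    fun z hz => ⟨(S.Fb z hz).1, hFn z hz⟩, hQ4, hHl, hHb⟩
  obtain ⟨R, hRg, hRe⟩ := hq D l (K * l) F H Q hSl
  set η : ℝ := Real.sqrt D / Real.sqrt l with hη
  have hη0 : 0 ≤ η := by positivity
  set e : ℝ := C0 * η with he
  have he0 : 0 ≤ e := by positivity
  have he1 : e ≤ 1 := by
    have : C0 * η ≤ C * η := mul_le_mul_of_nonneg_right (by rw [hC]; linarith) hη0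
    linarith
  set R1 : Fin N → E m → ℂ := fun j => R (Sum.inl j) with hR1
  set R2 : Fin N → E m → ℂ := fun j => R (Sum.inr j) with hR2
  have e1 : ∀ j z, ‖z‖ ≤ 1 → ‖R1 j z - q1 T A j (F z) (H z) (Q z)‖ ≤ e := fun j z hz =>
    hRe (Sum.inl j) z hz
  have e2 : ∀ j z, ‖z‖ ≤ 1 → ‖R2 j z - q2 T A Θ j (F z) (H z) (Q z)‖ ≤ e := fun j z hz =>
    hRe (Sum.inr j) z hz
  have hmem : ∀ z, ‖z‖ ≤ 1 → (F z, H z, Q z) ∈ TL N δ B := fun z hz => hSl.mem hz hz
  have hnb : ∀ {x y : ℂ} {s t : ℝ}, ‖x - y‖ ≤ s → ‖y‖ ≤ t → ‖x‖ ≤ s + t := fun {x y s t} h1 h2 => by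
    have := norm_add_le (x - y) y
    rw [sub_add_cancel] at this
    linarith
  have hb1 : ∀ j z, ‖z‖ ≤ 1 → ‖R1 j z‖ ≤ β := fun j z hz =>
    (hnb (e1 j z hz) (hq11 j (F z, H z, Q z) (hmem z hz))).trans (by rw [hβ]; linarith)
  have hb2 : ∀ j z, ‖z‖ ≤ 1 → ‖R2 j z‖ ≤ β := fun j z hz =>
    (hnb (e2 j z hz) (hq12 j (F z, H z, Q z) (hmem z hz))).trans (by rw [hβ]; linarith)
  have hu1 : 1 ≤ 4 * (T + 2) * (K * l) := Nat.mul_pos (by omega) hKl1
  have hs1 : 12 * β * Real.sqrt ((4 * (T + 2) * (K * l) : ℕ) : ℝ) = σ * Real.sqrt l := by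
    have : ((4 * (T + 2) * (K * l) : ℕ) : ℝ) = ((4 * (T + 2) * K : ℕ) : ℝ) * (l : ℝ) := by
      push_cast; ring
    rw [this, Real.sqrt_mul (Nat.cast_nonneg _), hσ]
    ring
  have hsl0 : 0 ≤ Real.sqrt (l:ℝ) := Real.sqrt_nonneg _
  have l1 : ∀ j, Lc β (σ * Real.sqrt l) (R1 j) := fun j => by
    have := Lc.of_gr hu1 (hRg (Sum.inl j)) hβ0 (hb1 j)
    rwa [hs1] at this
  have l2 : ∀ j, Lc β (σ * Real.sqrt l) (R2 j) := fun j => by
    have := Lc.of_gr hu1 (hRg (Sum.inr j)) hβ0 (hb2 j)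
    rwa [hs1] at this
  -- the first approximation
  set H1 : E m → Fin N → ℂ := fun z j => H z j + R1 j z + R2 j z - ∑ k, R2 k z * M k j z with hH1
  set L1 : ℝ := Λ * Real.sqrt D + σ * Real.sqrt l + σ * Real.sqrt l +
    N * (β * (C1 * Real.sqrt l) + C1 * (σ * Real.sqrt l)) with hL1
  have lH1 : ∀ j, Lc B1 L1 (fun z => H1 z j) := by
    intro j
    have h1 := Lc.sum Finset.univ (u := fun k z => R2 k z * M k j z) (b := β * C1)
      (L := β * (C1 * Real.sqrt l) + C1 * (σ * Real.sqrt l)) (by positivity)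
      fun k _ => (l2 k).mul (hMl k j)
    rw [Finset.card_univ, Fintype.card_fin] at h1
    exact (((hHl j).add (l1 j)).add (l2 j)).sub h1
  set W : E m → Fin N → ℂ := fun z j => ∑ k, c0 Θ (F z) (H z) k * M k j z with hW
  have hmd : ∀ z j, mdl T A Θ (F z) (H z) (Q z) (W z) j = H z j +
      q1 T A j (F z) (H z) (Q z) + q2 T A Θ j (F z) (H z) (Q z) -
      ∑ k, q2 T A Θ k (F z) (H z) (Q z) * M k j z := by
    intro z j
    have h1 : ∑ k, q2 T A Θ k (F z) (H z) (Q z) * M k j z =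
        lam T A (F z) (H z) (Q z) * W z j := by
      rw [hW, Finset.mul_sum]
      refine Finset.sum_congr rfl fun k _ => ?_
      unfold q2
      ring
    rw [h1]
    unfold mdl q1 q2
    ring
  have hMq : ∀ z, ‖z‖ ≤ 1 → ∀ k j, ‖M k j z‖ ≤ C1 * (nn (Q z) + η) := fun z hz k j =>
    ((hMb z hz k).1 j).trans (mul_le_mul_of_nonneg_left (by
      have := comp_le_nn (Q z) k
      linarith) hC10)
  have hc0n : ∀ z, ‖z‖ ≤ 1 → nn (c0 Θ (F z) (H z)) ≤ 2 / δ := fun z hz =>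
    c0_nn hδ hΘ hΘ4 (hFd z hz) (hbd z hz)
  have hWn : ∀ z, ‖z‖ ≤ 1 → nn (W z) ≤ (1 + (N + 1) * (N * (2 / δ * C1))) *
      (nn (Q z) + η) := by
    intro z hz
    have hnQ := nn_nonneg (Q z)
    have h1 : nn (W z) ≤ (N + 1) * (N * (2 / δ * (C1 * (nn (Q z) + η)))) := by
      refine nn_le_comp (by positivity) fun j => ?_
      refine (norm_sum_le _ _).trans ?_
      refine (Finset.sum_le_card_nsmul _ _ (2 / δ * (C1 * (nn (Q z) + η))) fun k _ => ?_).trans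
        (le_of_eq ?_)
      · rw [norm_mul]
        exact mul_le_mul ((comp_le_nn _ k).trans (hc0n z hz)) (hMq z hz k j) (norm_nonneg _)
          (by positivity)
      · rw [nsmul_eq_mul, Finset.card_univ, Fintype.card_fin]
    refine h1.trans ?_
    have h2 : (N + 1) * (N * (2 / δ * (C1 * (nn (Q z) + η)))) =
        ((N + 1) * (N * (2 / δ * C1))) * (nn (Q z) + η) := by ring
    rw [h2]
    exact mul_le_mul_of_nonneg_right (by linarith) (by positivity)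
  have hclose : ∀ z, ‖z‖ ≤ 1 → ∀ j,
      ‖H1 z j - mdl T A Θ (F z) (H z) (Q z) (W z) j‖ ≤ κ1 * e := by
    intro z hz j
    have h2 : 4 * (C1 * 0) = 0 := by ring
    have hM1 : ∀ k, ‖M k j z‖ ≤ C1 := fun k => (hMl k j).bd z hz
    have h1 : H1 z j - mdl T A Θ (F z) (H z) (Q z) (W z) j =
        (R1 j z - q1 T A j (F z) (H z) (Q z)) + (R2 j z - q2 T A Θ j (F z) (H z) (Q z)) -
        ∑ k, (R2 k z - q2 T A Θ k (F z) (H z) (Q z)) * M k j z := by
      rw [hmd, hH1]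
      simp only [sub_mul, Finset.sum_sub_distrib]
      ring
    rw [h1]
    refine (norm_sub_le _ _).trans ?_
    have h3 := norm_add_le (R1 j z - q1 T A j (F z) (H z) (Q z))
      (R2 j z - q2 T A Θ j (F z) (H z) (Q z))
    have h4 : ‖∑ k, (R2 k z - q2 T A Θ k (F z) (H z) (Q z)) * M k j z‖ ≤ N * (e * C1) := by
      refine (norm_sum_le _ _).trans ?_
      refine (Finset.sum_le_card_nsmul _ _ (e * C1) fun k _ => ?_).trans (le_of_eq ?_)
      · rw [norm_mul]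
        exact mul_le_mul (e2 k z hz) (hM1 k) (norm_nonneg _) he0
      · rw [nsmul_eq_mul, Finset.card_univ, Fintype.card_fin]
    have h5 : κ1 * e = e + e + N * (e * C1) := by rw [hκ1]; ring
    rw [h5]
    have := e1 j z hz
    have := e2 j z hz
    linarith
  -- the product
  set G : E m → ℂ := fun z => ∑ j, (F z j + Q z j) * H1 z j with hG
  have hGb : ∀ j z, ‖z‖ ≤ 1 → ‖F z j + Q z j‖ ≤ 2 := fun j z hz =>
    (comp_le_nn (fun j => F z j + Q z j) j).trans (S.Gb z hz).2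
  have lG : ∀ j, Lc 2 (24 * (Real.sqrt K * Real.sqrt l)) (fun z => F z j + Q z j) := by
    intro j
    have h1 : Gr 0 (K * l) (fun z => F z j + Q z j) :=
      ((S.Fg j).mono le_rfl (by omega)).add ((S.Qg j).mono (Nat.zero_le _) le_rfl)
    refine (Lc.of_gr hKl1 h1 (by norm_num) (hGb j)).mono le_rfl (le_of_eq ?_)
    push_cast
    rw [Real.sqrt_mul (Nat.cast_nonneg _)]
    ring
  set LG : ℝ := N * (2 * L1 + B1 * (24 * (Real.sqrt K * Real.sqrt l))) with hLG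
  have lGG : Lc (N * (2 * B1)) LG G := by
    have h1 := Lc.sum Finset.univ (u := fun j z => (F z j + Q z j) * H1 z j)
      (b := 2 * B1) (L := 2 * L1 + B1 * (24 * (Real.sqrt K * Real.sqrt l))) (by positivity)
      fun j _ => (lG j).mul (lH1 j)
    rwa [Finset.card_univ, Fintype.card_fin] at h1
  have hG1 : ∀ z, ‖z‖ ≤ 1 → ‖G z - 1‖ ≤ κ2 * η := by
    intro z hz
    have h1 := bd_mdl (T := T) (A := A) (w := W z) (v := Q z) hδ hΘ hΘ4 (hFd z hz) (hbd z hz)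
    have h2 : G z - 1 = ∑ j, (F z j + Q z j) * (H1 z j -
        mdl T A Θ (F z) (H z) (Q z) (W z) j) + lam T A (F z) (H z) (Q z) *
        (bd (Q z) (c0 Θ (F z) (H z)) - bd (fun j => F z j + Q z j) (W z)) := by
      have h3 : ∑ j, (F z j + Q z j) * (H1 z j - mdl T A Θ (F z) (H z) (Q z) (W z) j) =
          G z - bd (fun j => F z j + Q z j) (mdl T A Θ (F z) (H z) (Q z) (W z)) := by
        rw [hG]
        unfold bd
        rw [← Finset.sum_sub_distrib]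
        exact Finset.sum_congr rfl fun j _ => by ring
      rw [h3, h1]
      ring
    rw [h2]
    refine (norm_add_le _ _).trans ?_
    have h4 : ‖∑ j, (F z j + Q z j) * (H1 z j - mdl T A Θ (F z) (H z) (Q z) (W z) j)‖ ≤
        N * (2 * (κ1 * e)) := by
      refine (norm_sum_le _ _).trans ?_
      refine (Finset.sum_le_card_nsmul _ _ (2 * (κ1 * e)) fun j _ => ?_).trans (le_of_eq ?_)
      · rw [norm_mul]
        exact mul_le_mul (hGb j z hz) (hclose z hz j) (norm_nonneg _) (by norm_num)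
      · rw [nsmul_eq_mul, Finset.card_univ, Fintype.card_fin]
    have h5 : bd (Q z) (c0 Θ (F z) (H z)) - bd (fun j => F z j + Q z j) (W z) =
        -∑ k, c0 Θ (F z) (H z) k * (∑ j, M k j z * (F z j + Q z j) - Q z k) := by
      have h6 : bd (fun j => F z j + Q z j) (W z) =
          ∑ k, c0 Θ (F z) (H z) k * ∑ j, M k j z * (F z j + Q z j) := by
        unfold bd
        rw [hW]
        simp_rw [Finset.mul_sum]
        rw [Finset.sum_comm]
        exact Finset.sum_congr rfl fun j _ => Finset.sum_congr rfl fun k _ => by ring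
      rw [h6]
      unfold bd
      rw [← Finset.sum_sub_distrib, ← Finset.sum_neg_distrib]
      exact Finset.sum_congr rfl fun k _ => by ring
    have h7 : ‖bd (Q z) (c0 Θ (F z) (H z)) - bd (fun j => F z j + Q z j) (W z)‖ ≤
        N * (2 / δ * (C1 * η)) := by
      rw [h5, norm_neg]
      refine (norm_sum_le _ _).trans ?_
      refine (Finset.sum_le_card_nsmul _ _ (2 / δ * (C1 * η)) fun k _ => ?_).trans (le_of_eq ?_)
      · rw [norm_mul]
        exact mul_le_mul ((comp_le_nn _ k).trans (hc0n z hz)) (hMb z hz k).2 (norm_nonneg _)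
          (by positivity)
      · rw [nsmul_eq_mul, Finset.card_univ, Fintype.card_fin]
    have h8 : ‖lam T A (F z) (H z) (Q z)‖ ≤ bl := hbl1 (F z, H z, Q z) (hmem z hz)
    rw [norm_mul]
    have h9 := mul_le_mul h8 h7 (norm_nonneg _) hbl
    refine (add_le_add h4 h9).trans (le_of_eq ?_)
    rw [hκ2, he]
    ring
  have hsm2 : κ2 * η ≤ 1 / 2 := by
    have h1 : 2 * κ2 * η ≤ C * η := mul_le_mul_of_nonneg_right (by rw [hC]; linarith) hη0
    linarith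
  have hG2 : ∀ z, ‖z‖ ≤ 1 → 1 / 2 ≤ ‖G z‖ := by
    intro z hz
    have h1 := norm_sub_norm_le (1:ℂ) (1 - G z)
    rw [sub_sub_cancel, norm_one, norm_sub_rev] at h1
    have := hG1 z hz
    linarith
  have hG0 : ∀ z, ‖z‖ ≤ 1 → G z ≠ 0 := fun z hz => norm_pos_iff.1 (by linarith [hG2 z hz])
  have lGi := lGG.inv (c := 1 / 2) (by norm_num) hG2
  have hfin : ∀ z, ‖z‖ ≤ 1 → ∀ j, ‖H1 z j * (G z)⁻¹ -
      mdl T A Θ (F z) (H z) (Q z) (W z) j‖ ≤ (2 * B1 * κ2 + κ1 * C0) * η := by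
    intro z hz j
    have h0 := hG0 z hz
    have h1 : H1 z j * (G z)⁻¹ - mdl T A Θ (F z) (H z) (Q z) (W z) j =
        H1 z j * (-(G z - 1) / G z) + (H1 z j - mdl T A Θ (F z) (H z) (Q z) (W z) j) := by
      field_simp
      ring
    rw [h1]
    refine (norm_add_le _ _).trans ?_
    have h2 : ‖H1 z j * (-(G z - 1) / G z)‖ ≤ B1 * (2 * κ2 * η) := by
      rw [norm_mul]
      refine mul_le_mul ((lH1 j).bd z hz) ?_ (norm_nonneg _) hB10
      rw [norm_div, norm_neg, div_le_iff₀ (by linarith [hG2 z hz])]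
      have h3 := hG1 z hz
      have h4 := hG2 z hz
      have h5 : 0 ≤ 2 * κ2 * η := by positivity
      nlinarith
    have h3 := hclose z hz j
    calc _ ≤ B1 * (2 * κ2 * η) + κ1 * e := add_le_add h2 h3
      _ = _ := by rw [he]; ring
  refine ⟨fun z j => H1 z j * (G z)⁻¹, fun j => ?_, fun z hz => ?_, fun z hz =>
    ⟨W z, hWn z hz, fun j => ⟨?_, ?_⟩⟩⟩
  · refine ((lH1 j).mul lGi).mono ?_ ?_
    · have : B1 * (1 / (1 / 2)) = 2 * B1 := by ring
      rw [this]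
      linarith
    · have h1 : B1 * (LG / (1 / 2) ^ 2) + 1 / (1 / 2) * L1 =
          k2 * Real.sqrt l + k1 * (Λ * Real.sqrt D) := by
        rw [hLG, hL1, hk1, hk2]
        ring
      rw [h1]
      have h2 : 0 ≤ Λ * Real.sqrt D := by positivity
      have h3 : k2 * Real.sqrt l ≤ (1 + 2 * B1 + k1 + k2) * Real.sqrt l :=
        mul_le_mul_of_nonneg_right (by linarith) hsl0
      have h4 : k1 * (Λ * Real.sqrt D) ≤ (1 + 2 * B1 + k1 + k2) * (Λ * Real.sqrt D) :=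
        mul_le_mul_of_nonneg_right (by linarith) h2
      rw [mul_add]
      linarith
  · have h0 := hG0 z hz
    unfold bd
    have h1 : ∑ j, (F z j + Q z j) * (H1 z j * (G z)⁻¹) = G z * (G z)⁻¹ := by
      rw [hG, Finset.sum_mul]
      exact Finset.sum_congr rfl fun j _ => by ring
    rw [h1, mul_inv_cancel₀ h0]
  · refine (hfin z hz j).trans ?_
    exact mul_le_mul_of_nonneg_right (by rw [hC]; linarith) hη0
  · have h1 := hfin z hz j
    have hnQ := nn_nonneg (Q z)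
    set v0 : Fin N → ℂ := fun _ => 0 with hv0
    have hm0 : (F z, H z, v0) ∈ TL N δ B := by
      refine ⟨(S.Fb z hz).1, hFn z hz, hHb z hz, ?_⟩
      have : nn v0 = 0 := by rw [hv0]; unfold nn nsq; simp
      change nn v0 ≤ 4
      rw [this]; norm_num
    have hx0 : xx (F z) v0 = 0 := by unfold xx; simp [hv0]
    have hy0 : bd (H z) v0 = 0 := by unfold bd; simp [hv0]
    have hE0 : ET T A 0 = 1 := by
      unfold ET
      rw [Finset.sum_range_succ', Finset.sum_eq_zero]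
      · simp
      · intro k _
        rw [mul_zero, zero_pow (Nat.succ_ne_zero k), zero_div]
    have z1 : q1 T A j (F z) (H z) v0 = 0 := by
      unfold q1; rw [hx0, hE0]; ring
    have z2 : q2 T A Θ j (F z) (H z) v0 = 0 := by
      unfold q2 lam; rw [hx0, hE0, hy0]; ring
    have hdist : dist ((F z, H z, Q z) : (Fin N → ℂ) × (Fin N → ℂ) × (Fin N → ℂ))
        (F z, H z, v0) ≤ nn (Q z) := by
      refine max_le (by simp only [dist_self]; exact nn_nonneg _)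
        (max_le (by simp only [dist_self]; exact nn_nonneg _) ?_)
      refine (dist_pi_le_iff (nn_nonneg _)).2 fun i => ?_
      change dist (Q z i) (v0 i) ≤ nn (Q z)
      rw [hv0]
      simp only
      rw [dist_zero_right]
      exact comp_le_nn _ _
    have b1 : ‖q1 T A j (F z) (H z) (Q z)‖ ≤ b0 * nn (Q z) := by
      have := hq21 j (F z, H z, Q z) (hmem z hz) (F z, H z, v0) hm0
      simp only [z1, sub_zero] at this
      exact this.trans (mul_le_mul_of_nonneg_left hdist hb0)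
    have b2 : ‖q2 T A Θ j (F z) (H z) (Q z)‖ ≤ b0 * nn (Q z) := by
      have := hq22 j (F z, H z, Q z) (hmem z hz) (F z, H z, v0) hm0
      simp only [z2, sub_zero] at this
      exact this.trans (mul_le_mul_of_nonneg_left hdist hb0)
    have b3 : ‖∑ k, q2 T A Θ k (F z) (H z) (Q z) * M k j z‖ ≤
        N * (b0 * (C1 * (nn (Q z) + η))) := by
      refine (norm_sum_le _ _).trans ?_
      refine (Finset.sum_le_card_nsmul _ _ (b0 * (C1 * (nn (Q z) + η))) fun k _ => ?_).trans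
        (le_of_eq ?_)
      · rw [norm_mul]
        exact mul_le_mul (hq12 k (F z, H z, Q z) (hmem z hz)) (hMq z hz k j) (norm_nonneg _) hb0
      · rw [nsmul_eq_mul, Finset.card_univ, Fintype.card_fin]
    have h2 : ‖mdl T A Θ (F z) (H z) (Q z) (W z) j - H z j‖ ≤
        (2 * b0 + N * (b0 * C1)) * (nn (Q z) + η) := by
      rw [hmd]
      have h3 : H z j + q1 T A j (F z) (H z) (Q z) + q2 T A Θ j (F z) (H z) (Q z) -
          ∑ k, q2 T A Θ k (F z) (H z) (Q z) * M k j z - H z j =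
          (q1 T A j (F z) (H z) (Q z) + q2 T A Θ j (F z) (H z) (Q z)) -
          ∑ k, q2 T A Θ k (F z) (H z) (Q z) * M k j z := by ring
      rw [h3]
      refine (norm_sub_le _ _).trans ?_
      have h4 := norm_add_le (q1 T A j (F z) (H z) (Q z)) (q2 T A Θ j (F z) (H z) (Q z))
      have h5 : 0 ≤ 2 * b0 * η := by positivity
      have h6 : (2 * b0 + N * (b0 * C1)) * (nn (Q z) + η) = b0 * nn (Q z) + b0 * nn (Q z) +
          2 * b0 * η + N * (b0 * (C1 * (nn (Q z) + η))) := by ring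
      rw [h6]
      linarith
    have h3 : H1 z j * (G z)⁻¹ - H z j = (H1 z j * (G z)⁻¹ -
        mdl T A Θ (F z) (H z) (Q z) (W z) j) +
        (mdl T A Θ (F z) (H z) (Q z) (W z) j - H z j) := by ring
    change ‖H1 z j * (G z)⁻¹ - H z j‖ ≤ _
    rw [h3]
    refine (norm_add_le _ _).trans ((add_le_add h1 h2).trans ?_)
    have h4 : (2 * B1 * κ2 + κ1 * C0) * η ≤ (2 * B1 * κ2 + κ1 * C0) * (nn (Q z) + η) :=
      mul_le_mul_of_nonneg_left (by linarith) (by positivity)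
    have h5 : (2 * B1 * κ2 + κ1 * C0 + (2 * b0 + N * (b0 * C1))) * (nn (Q z) + η) ≤
        C * (nn (Q z) + η) := mul_le_mul_of_nonneg_right (by rw [hC]; linarith) (by positivity)
    linarith

end Pool.Agent.K9h23.Big
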