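import Mathlib
import Pool.Agent.K9h23.Big.Stg
import Pool.Agent.K9h23.Mix.Rmn

/-!
The recursion without loss at the large blocks.
-/

set_option autoImplicit false

open MeasureTheory Set Complex Metric Filter Topology
open scoped Real

namespace Pool.Agent.K9h23.Big

open Pool.Agent.K9h23.Hom Pool.Agent.K9h23.Bnd Pool.Agent.K9h23.Mix
open Pool.Agent.K9h23.Lac (nsq nsq_nonneg nsq_cont nsq_c nn nn_nonneg nn_sq nn_add_le le_nsq
  nsq_smul' bd bd_le_nn comp_le_nn nsq_conj nn_le_comp Bal isOpen_Bal)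

variable {m N : ℕ}

/-- from the model to the solution -/
theorem from_model {A P y ε' : ℝ} {G Hm H' : Fin N → ℂ} {ng : ℝ} (hA : 0 ≤ A) (hP : 1 ≤ P)
    (hng : 0 ≤ ng) (hε : 0 ≤ ε') (hy : 0 ≤ y)
    (h1 : nsq Hm * Real.exp (-(A * ng)) ≤ P * Real.exp ε')
    (h2 : nn (fun j => H' j - Hm j) ≤ y) :
    nsq H' * Real.exp (-(A * ng)) ≤ P * Real.exp (ε' + 2 * y) := by
  set X : ℝ := Real.exp (A * ng) with hX
  have hX1 : 1 ≤ X := Real.one_le_exp (mul_nonneg hA hng)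
  have hXX : Real.exp (-(A * ng)) * X = 1 := by
    rw [hX, ← Real.exp_add]
    simp
  have he1 : 1 ≤ Real.exp ε' := Real.one_le_exp hε
  have hG2 : nsq Hm ≤ P * Real.exp ε' * X := by
    have h3 := mul_le_mul_of_nonneg_right h1 (by linarith : 0 ≤ X)
    rwa [mul_assoc, hXX, mul_one] at h3
  have hPX : 1 ≤ P * Real.exp ε' * X := by
    have h4 : 1 ≤ P * Real.exp ε' := by nlinarith
    nlinarith
  set rt : ℝ := Real.sqrt (P * Real.exp ε' * X) with hs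
  have hs1 : 1 ≤ rt := Real.one_le_sqrt.2 hPX
  have hs2 : rt ^ 2 = P * Real.exp ε' * X := Real.sq_sqrt (by linarith)
  have a1 : nn Hm ≤ rt := Real.sqrt_le_sqrt hG2
  have a3 := nn_add_le Hm (fun j => H' j - Hm j)
  have e : (fun j => Hm j + (H' j - Hm j)) = H' := by
    funext j; ring
  rw [e] at a3
  have a4 : nn H' ≤ rt * Real.exp y := by
    have a5 := Real.add_one_le_exp y
    nlinarith
  have a5 : nsq H' ≤ P * Real.exp ε' * X * Real.exp (2 * y) := by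
    rw [← nn_sq, ← hs2]
    have a6 := pow_le_pow_left₀ (nn_nonneg _) a4 2
    rw [mul_pow, ← Real.exp_nat_mul] at a6
    exact_mod_cast a6
  calc nsq H' * Real.exp (-(A * ng)) ≤ P * Real.exp ε' * X * Real.exp (2 * y) *
        Real.exp (-(A * ng)) := mul_le_mul_of_nonneg_right a5 (Real.exp_pos _).le
    _ = P * Real.exp ε' * Real.exp (2 * y) * (Real.exp (-(A * ng)) * X) := by ring
    _ = P * Real.exp (ε' + 2 * y) := by rw [hXX, mul_one, Real.exp_add]; ring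

/-- **One step.** -/
theorem stepB (m N K : ℕ) (hK : 1 ≤ K) {δ : ℝ} (hδ : 0 < δ) (hδ1 : δ ≤ 1) :
    ∃ A : ℝ, 4 ≤ A ∧ ∃ P1 : ℝ, 400 * A ≤ P1 ∧ 1 / δ ^ 2 ≤ P1 ∧
    ∀ B : ℝ, 1 ≤ B → ∀ Λ0 : ℝ, 0 ≤ Λ0 → ∃ Λ : ℝ, Λ0 ≤ Λ ∧ ∃ C : ℝ, 1 ≤ C ∧
    ∀ (W : Set ℕ) (s : ℕ → ℝ) (D l : ℕ → ℕ) (F Q : ℕ → E m → Fin N → ℂ),
    Md A δ K W s D l F Q → ∀ i, C * et D l i ≤ 1 →
    ∀ H : E m → Fin N → ℂ,
    (∀ j, Lc B (Λ * Real.sqrt (D i)) (fun z => H z j)) → (∀ z, ‖z‖ ≤ 1 → nn (H z) ≤ B) →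
    (∀ z, ‖z‖ ≤ 1 → bd (F i z) (H z) = 1) →
    ∃ H' : E m → Fin N → ℂ,
      (∀ j, ∃ b', Lc b' (Λ * Real.sqrt (D (i + 1))) (fun z => H' z j)) ∧
      (∀ z, ‖z‖ ≤ 1 → bd (F (i + 1) z) (H' z) = 1) ∧
      ∀ z, ‖z‖ ≤ 1 → (∀ P : ℝ, P1 ≤ P →
        nsq (H z) * Real.exp (-(A * nsq (F i z))) ≤ P →
        nsq (H' z) * Real.exp (-(A * nsq (F (i + 1) z))) ≤
          P * Real.exp (C * (s i * et D l i))) ∧
        ∀ j, ‖H' z j - H z j‖ ≤ C * (nn (Q i z) + s i * et D l i) := by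
  have hN0 : (0:ℝ) ≤ N := Nat.cast_nonneg N
  obtain ⟨C2, hC2, hbst⟩ := bst m N K hK hδ
  set A : ℝ := 4 + 16 / δ ^ 2 + (1 + 32 / δ ^ 2 + 8 * C2) with hA
  have hd1 : 0 < 16 / δ ^ 2 := by positivity
  have hd2 : 0 < 32 / δ ^ 2 := by positivity
  have hA4 : 4 ≤ A := by rw [hA]; linarith
  have hA0 : 0 < A := by linarith
  have hAδ : 16 ≤ A * δ ^ 2 := by
    have h1 : 16 / δ ^ 2 * δ ^ 2 = 16 := by field_simp
    have h2 : 16 / δ ^ 2 * δ ^ 2 ≤ A * δ ^ 2 :=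
      mul_le_mul_of_nonneg_right (by rw [hA]; linarith) (by positivity)
    linarith
  have hApw : 1 + 32 / δ ^ 2 + 8 * C2 ≤ A := by rw [hA]; linarith
  obtain ⟨T, hT⟩ := exists_T (A := A) (by linarith)
  set Θ : ℝ := (A * Real.exp (8 * A)) ^ 2 + 4 + 1 / δ ^ 2 with hΘ
  have hd3 : 0 < 1 / δ ^ 2 := by positivity
  have hsq0 : 0 ≤ (A * Real.exp (8 * A)) ^ 2 := sq_nonneg _
  have hΘδ : 1 / δ ^ 2 ≤ Θ := by rw [hΘ]; linarith
  have hΘ4 : 4 ≤ Θ := by rw [hΘ]; linarith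
  have hΘA : (A * Real.exp (8 * A)) ^ 2 ≤ Θ := by rw [hΘ]; linarith
  set p1 : ℝ := Real.exp (8 * A) * (10 * Real.sqrt Θ) +
      (1 + (1 + 40 * Real.sqrt Θ) * Real.exp (8 * A)) * (2 / δ + 5 * C2) with hp1
  have hp10 : 0 ≤ p1 := by positivity
  refine ⟨A, hA4, p1 ^ 2 + 400 * A + 1 / δ ^ 2, by nlinarith [sq_nonneg p1],
    by nlinarith [sq_nonneg p1], fun B hB Λ0 hΛ0 => ?_⟩
  obtain ⟨b, hb, hbst⟩ := hbst T A Θ hΘδ hΘ4 B hB
  have hb0 : 0 ≤ b := by linarith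
  obtain ⟨_, -, hstep⟩ := step m N K hK hδ hA4 hAδ
  obtain ⟨Λ, hΛ, Cm, hCm, hstep⟩ := hstep B hB (Λ0 + 2 * b) (by linarith)
  have hΛ1 : 0 ≤ Λ := by linarith
  obtain ⟨Cl, hCl, hbst⟩ := hbst Λ hΛ1
  set C : ℝ := Cm + Cl + 2 * b + 32 * C2 + 2 * ((N + 1) * Cl) with hC
  have t1 : 0 ≤ (N + 1) * Cl := by positivity
  have hCmC : Cm ≤ C := by rw [hC]; linarith
  have hClC : Cl ≤ C := by rw [hC]; linarith
  have hbC : 2 * b ≤ C := by rw [hC]; linarith
  refine ⟨Λ, by linarith, C, by linarith, fun W s D l F Q S i hi H hHl hHb hbd => ?_⟩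
  have hη0 := et_nonneg D l i
  set η : ℝ := et D l i with hη
  have hηe : η = Real.sqrt (D i) / Real.sqrt (l i) := rfl
  have hsη0 : 0 ≤ s i * η := mul_nonneg (S.s0 i) hη0
  by_cases hE : i ∈ W
  swap
  · -- a small block
    obtain ⟨H', h1, h2, h3⟩ := hstep W s D l F Q S i
      ((mul_le_mul_of_nonneg_right hCmC hη0).trans hi) H hHl hHb hbd
    refine ⟨H', h1, h2, fun z hz => ⟨fun P hP hg => ?_, fun j => ?_⟩⟩
    · have h4 := (h3 z hz).1 P (by nlinarith [sq_nonneg p1]) hg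
      have hw : wt W Q i z = 0 := by unfold wt; rw [if_neg hE]
      rw [hw, mul_zero, zero_add] at h4
      refine h4.trans (mul_le_mul_of_nonneg_left (Real.exp_le_exp.2 ?_)
        (by nlinarith [sq_nonneg p1]))
      exact mul_le_mul_of_nonneg_right hCmC hsη0
    · refine ((h3 z hz).2 j).trans (mul_le_mul_of_nonneg_right hCmC ?_)
      have := nn_nonneg (Q i z)
      positivity
  -- a large block
  have hl0 : (0:ℝ) < l i := by
    have := S.l2 i
    exact_mod_cast (by omega : 0 < l i)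
  have hsl : 0 < Real.sqrt (l i) := Real.sqrt_pos.2 hl0
  have hDD : Real.sqrt (l i) ≤ Real.sqrt (D (i + 1)) := Real.sqrt_le_sqrt (by
    exact_mod_cast S.lD i)
  have hLip : b * (Real.sqrt (l i) + Λ * Real.sqrt (D i)) ≤ Λ * Real.sqrt (D (i + 1)) := by
    have h1 : 2 * b * η ≤ 1 := (mul_le_mul_of_nonneg_right hbC hη0).trans hi
    rw [hηe, mul_div_assoc', div_le_iff₀ hsl, one_mul] at h1
    have h2 : 2 * b * Real.sqrt (D i) ≤ Real.sqrt (D (i + 1)) := h1.trans hDD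
    have h3 : Λ * (2 * b * Real.sqrt (D i)) ≤ Λ * Real.sqrt (D (i + 1)) :=
      mul_le_mul_of_nonneg_left h2 hΛ1
    have h4 : 2 * b * Real.sqrt (l i) ≤ Λ * Real.sqrt (D (i + 1)) :=
      mul_le_mul (by linarith) hDD hsl.le hΛ1
    linarith
  have hFe : ∀ z, (fun j => F i z j + Q i z j) = F (i + 1) z := fun z => by
    funext j
    rw [S.Fs]
  rw [S.sW i hE, one_mul]
  have hBz : Bz δ 2 K (D i) (l i) (F i) (Q i) := by
    refine ⟨S.D1 i, S.Dl i, S.l2 i, S.Fg i, fun j => (S.Qg i j).mono le_rfl (S.EK i hE),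
      S.Fb i, fun z hz => ?_⟩
    rw [hFe]
    exact S.Fb (i + 1) z hz
  have hsm : Cl * (Real.sqrt (D i) / Real.sqrt (l i)) ≤ 1 :=
    (mul_le_mul_of_nonneg_right hClC hη0).trans hi
  obtain ⟨H', h1, h2, h3⟩ := hbst (D i) (l i) (F i) H (Q i) hBz hHl hHb hbd hsm
  have hη1 : η ≤ 1 := by
    have h4 : 1 * η ≤ C * η := mul_le_mul_of_nonneg_right (by linarith) hη0
    linarith
  refine ⟨H', fun j => ⟨b, (h1 j).mono le_rfl hLip⟩, fun z hz => ?_,
    fun z hz => ⟨fun P hP hg => ?_, fun j => ?_⟩⟩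
  · have := h2 z hz
    rw [hFe] at this
    exact this
  · obtain ⟨w, hw, hw2⟩ := h3 z hz
    rw [← hηe] at hw
    have hFn : nsq (F i z) ≤ 4 := by
      rw [← nn_sq]
      have := (S.Fb i z hz).2
      nlinarith [nn_nonneg (F i z)]
    have hFd : δ ^ 2 ≤ nsq (F i z) := by
      rw [← nn_sq]
      exact pow_le_pow_left₀ hδ.le (S.Fb i z hz).1 2
    have hQ4 : nn (Q i z) ≤ 4 := by
      have h4 := nn_add_le (F (i + 1) z) (fun j => -F i z j)
      have e1 : (fun j => F (i + 1) z j + -F i z j) = Q i z := by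
        funext j; rw [S.Fs]; ring
      have e2 : nn (fun j => -F i z j) = nn (F i z) := by unfold nn nsq; simp
      rw [e1, e2] at h4
      have := (S.Fb i z hz).2
      have := (S.Fb (i + 1) z hz).2
      linarith
    have hP1 : 1 ≤ P := by nlinarith [sq_nonneg p1]
    have hy : nn (fun j => H' z j - mdl T A Θ (F i z) (H z) (Q i z) w j) ≤
        (N + 1) * (Cl * η) := nn_le_comp (by positivity) fun j => (hw2 j).1
    have hmod : nsq (mdl T A Θ (F i z) (H z) (Q i z) w) *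
        Real.exp (-(A * nsq (F (i + 1) z))) ≤ P * Real.exp (32 * C2 * η) := by
      rcases lt_or_ge (100 * Θ) (nsq (H z)) with ht | ht
      · have h4 := pw hδ hδ1 (by linarith) hApw hT hΘδ hΘ4 hΘA hη0 hFd hFn (hbd z hz) hQ4 hw ht
        rw [hFe] at h4
        exact h4.trans (mul_le_mul_of_nonneg_right hg (Real.exp_pos _).le)
      · have h4 := pw_low (T := T) hδ (by linarith) hA0.le hΘδ hΘ4 hη1 hFd hFn (hbd z hz) hQ4 hw ht
        rw [← hp1] at h4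
        have h5 : nsq (mdl T A Θ (F i z) (H z) (Q i z) w) ≤ p1 ^ 2 := by
          rw [← nn_sq]
          exact pow_le_pow_left₀ (nn_nonneg _) h4 2
        have h6 : Real.exp (-(A * nsq (F (i + 1) z))) ≤ 1 := by
          rw [Real.exp_le_one_iff]
          have := nsq_nonneg (F (i + 1) z)
          nlinarith
        have h7 : 1 ≤ Real.exp (32 * C2 * η) := Real.one_le_exp (by positivity)
        calc nsq (mdl T A Θ (F i z) (H z) (Q i z) w) *
              Real.exp (-(A * nsq (F (i + 1) z))) ≤ p1 ^ 2 * 1 :=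
              mul_le_mul h5 h6 (Real.exp_pos _).le (sq_nonneg _)
          _ ≤ P * Real.exp (32 * C2 * η) := mul_le_mul (by nlinarith) h7 zero_le_one (by linarith)
    have h4 := from_model (G := F i z) hA0.le hP1 (nsq_nonneg (F (i + 1) z))
      (by positivity) (by positivity) hmod hy
    refine h4.trans (mul_le_mul_of_nonneg_left (Real.exp_le_exp.2 ?_) (by linarith))
    have h5 : 32 * C2 * η + 2 * ((N + 1) * (Cl * η)) = (32 * C2 + 2 * ((N + 1) * Cl)) * η := by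
      ring
    rw [h5]
    exact mul_le_mul_of_nonneg_right (by rw [hC]; linarith) hη0
  · obtain ⟨w, hw, hw2⟩ := h3 z hz
    refine (hw2 j).2.trans ?_
    rw [← hηe]
    refine mul_le_mul_of_nonneg_right hClC ?_
    have := nn_nonneg (Q i z)
    positivity

/-- **The recursion.** -/
theorem rmainB (m N K : ℕ) (hK : 1 ≤ K) {δ : ℝ} (hδ : 0 < δ) (hδ1 : δ ≤ 1) :
    ∃ A : ℝ, 4 ≤ A ∧ ∃ P1 : ℝ, 1 ≤ P1 ∧ ∀ P0 Λ0 : ℝ, P1 ≤ P0 → 0 ≤ Λ0 →
    ∃ c : ℝ, 0 < c ∧ ∀ (W : Set ℕ) (s : ℕ → ℝ) (D l : ℕ → ℕ) (F Q : ℕ → E m → Fin N → ℂ)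
      (f : E m → Fin N → ℂ), Md A δ K W s D l F Q → (∀ i, et D l i ≤ c) →
      (∀ I, ∑ i ∈ Finset.range I, s i * et D l i ≤ c) →
      (∀ z, ‖z‖ < 1 → ∀ j, Tendsto (fun i => F i z j) atTop (𝓝 (f z j))) →
      ∀ h0 : E m → Fin N → ℂ, (∀ j, ∃ b', Lc b' (Λ0 * Real.sqrt (D 0)) (fun z => h0 z j)) →
      (∀ z, ‖z‖ ≤ 1 → bd (F 0 z) (h0 z) = 1) →
      (∀ z, ‖z‖ ≤ 1 → nsq (h0 z) * Real.exp (-(A * nsq (F 0 z))) ≤ P0) →
      ∃ g : Fin N → (Fin m → ℂ) → ℂ, (∀ j, DifferentiableOn ℂ (g j) (Bal m)) ∧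
        (∀ z ∈ Bal m, nsq (fun j => g j z) ≤ P0 * Real.exp 1 * Real.exp (4 * A)) ∧
        ∀ z ∈ Bal m, ∑ j, f (WithLp.toLp 2 z) j * g j z = 1 := by
  have hN0 : (0:ℝ) ≤ N := Nat.cast_nonneg N
  obtain ⟨A, hA, P1, hP1A, -, hst⟩ := stepB m N K hK hδ hδ1
  have hA0 : 0 < A := by linarith
  refine ⟨A, hA, P1, by linarith, fun P0 Λ0 hP0 hΛ0 => ?_⟩
  have hP01 : 1 ≤ P0 := by linarith
  set X : ℝ := P0 * Real.exp 1 * Real.exp (4 * A) with hX
  have hX1 : 1 ≤ X := by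
    have h1 : 1 ≤ Real.exp 1 := Real.one_le_exp (by norm_num)
    have h2 : 1 ≤ Real.exp (4 * A) := Real.one_le_exp (by positivity)
    rw [hX]
    nlinarith [mul_le_mul hP01 h1 zero_le_one (by linarith)]
  set B : ℝ := Real.sqrt X with hB
  have hB1 : 1 ≤ B := Real.one_le_sqrt.2 hX1
  have hB2 : B ^ 2 = X := Real.sq_sqrt (by linarith)
  obtain ⟨Λ, hΛ, C, hC, hstep⟩ := hst B hB1 Λ0 hΛ0
  have hC0 : 0 < C := by linarith
  refine ⟨1 / C, by positivity, fun W s D l F Q f M hsup hgap hlim h0 hh0 hbd0 hg0 => ?_⟩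
  set η : ℕ → ℝ := fun i => s i * et D l i with hη
  have hη0 : ∀ i, 0 ≤ η i := fun i => mul_nonneg (M.s0 i) (et_nonneg D l i)
  have hηs : Summable η := summable_of_sum_range_le hη0 hgap
  have hηi : ∀ i, C * et D l i ≤ 1 := by
    intro i
    calc C * et D l i ≤ C * (1 / C) := mul_le_mul_of_nonneg_left (hsup i) hC0.le
      _ = 1 := by field_simp
  -- the invariant
  set Pz : ℕ → ℝ := fun i => P0 * Real.exp (C * ∑ t ∈ Finset.range i, η t) with hPz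
  have hPA : ∀ i, P1 ≤ Pz i := by
    intro i
    rw [hPz]
    have h2 : 0 ≤ ∑ t ∈ Finset.range i, η t := Finset.sum_nonneg fun t _ => hη0 t
    have h3 : 1 ≤ Real.exp (C * ∑ t ∈ Finset.range i, η t) := Real.one_le_exp (by positivity)
    have : P0 * 1 ≤ P0 * Real.exp (C * ∑ t ∈ Finset.range i, η t) :=
      mul_le_mul_of_nonneg_left h3 (by linarith)
    simp only
    linarith
  set Good : ℕ → (E m → Fin N → ℂ) → Prop := fun i H =>
    (∀ j, ∃ b', Lc b' (Λ * Real.sqrt (D i)) (fun z => H z j)) ∧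
    (∀ z, ‖z‖ ≤ 1 → bd (F i z) (H z) = 1) ∧
    (∀ z, ‖z‖ ≤ 1 → nsq (H z) * Real.exp (-(A * nsq (F i z))) ≤ Pz i) with hGood
  have hsize2 : ∀ i H, Good i H → ∀ z, ‖z‖ ≤ 1 → nsq (H z) ≤ X := by
    intro i H hH z hz
    have h1 := hH.2.2 z hz
    have h2 : Pz i ≤ P0 * Real.exp 1 := by
      rw [hPz]
      refine mul_le_mul_of_nonneg_left (Real.exp_le_exp.2 ?_) (by linarith)
      have h4 : C * ∑ t ∈ Finset.range i, η t ≤ C * (1 / C) :=
        mul_le_mul_of_nonneg_left (hgap i) hC0.le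
      have h5 : C * (1 / C) = 1 := by field_simp
      linarith
    have h3 : nsq (F i z) ≤ 4 := by
      rw [← nn_sq]
      have := (M.Fb i z hz).2
      nlinarith [nn_nonneg (F i z)]
    rw [hX]
    have h4 : nsq (H z) = nsq (H z) * Real.exp (-(A * nsq (F i z))) *
        Real.exp (A * nsq (F i z)) := by
      rw [mul_assoc, ← Real.exp_add]
      simp
    rw [h4]
    have h5 : Real.exp (A * nsq (F i z)) ≤ Real.exp (4 * A) := Real.exp_le_exp.2 (by nlinarith)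
    exact mul_le_mul (h1.trans h2) h5 (Real.exp_pos _).le (by positivity)
  have hsize : ∀ i H, Good i H → ∀ z, ‖z‖ ≤ 1 → nn (H z) ≤ B := by
    intro i H hH z hz
    refine Pool.Agent.K9h23.Lac.nn_le_of (by linarith) ?_
    rw [hB2]
    exact hsize2 i H hH z hz
  have hnext : ∀ i H, Good i H → ∃ H', Good (i + 1) H' ∧
      ∀ z, ‖z‖ ≤ 1 → ∀ j, ‖H' z j - H z j‖ ≤ C * (nn (Q i z) + η i) := by
    intro i H hH
    have hsz := hsize i H hH
    have hl : ∀ j, Lc B (Λ * Real.sqrt (D i)) (fun z => H z j) := by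
      intro j
      obtain ⟨b', hb'⟩ := hH.1 j
      exact ⟨hb'.meas, hb'.dif, hb'.L0, fun z hz => (comp_le_nn _ j).trans (hsz z hz), hb'.lip⟩
    obtain ⟨H', h1, h2, h3⟩ := hstep W s D l F Q M i (hηi i) H hl hsz hH.2.1
    refine ⟨H', ⟨h1, h2, fun z hz => ?_⟩, fun z hz j => (h3 z hz).2 j⟩
    refine ((h3 z hz).1 _ (hPA i) (hH.2.2 z hz)).trans (le_of_eq ?_)
    rw [hPz]
    simp only
    rw [mul_assoc, ← Real.exp_add, Finset.sum_range_succ]
    congr 2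
    ring
  have hgood0 : Good 0 h0 := by
    refine ⟨fun j => ?_, hbd0, fun z hz => ?_⟩
    · obtain ⟨b', hb'⟩ := hh0 j
      exact ⟨b', hb'.mono le_rfl (mul_le_mul_of_nonneg_right hΛ (Real.sqrt_nonneg _))⟩
    · have h3 : Pz 0 = P0 := by
        rw [hPz]
        simp
      rw [h3]
      exact hg0 z hz
  -- the sequence
  choose! nx hnx1 hnx2 using hnext
  set sq : ℕ → E m → Fin N → ℂ := fun i => Nat.rec h0 (fun i H => nx i H) i with hsq
  have hsq0 : sq 0 = h0 := rfl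
  have hsqs : ∀ i, sq (i + 1) = nx i (sq i) := fun i => rfl
  have hgood : ∀ i, Good i (sq i) := by
    intro i
    induction i with
    | zero => exact hgood0
    | succ i ih =>
      rw [hsqs]
      exact hnx1 i _ ih
  have hQb : ∀ i z a, ‖z‖ ≤ 1 → ‖Q i z a‖ ≤ 4 := by
    intro i z a hz
    have e : Q i z a = F (i + 1) z a - F i z a := by
      rw [M.Fs]; ring
    rw [e]
    refine (norm_sub_le _ _).trans ?_
    have h1 := (comp_le_nn _ a).trans (M.Fb (i + 1) z hz).2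
    have h2 := (comp_le_nn _ a).trans (M.Fb i z hz).2
    linarith
  have hQr : ∀ i z r, ‖z‖ ≤ r → r < 1 → nn (Q i z) ≤ (N + 1) * (4 * r ^ i) := by
    intro i z r hz hr
    have hr0 : 0 ≤ r := (norm_nonneg z).trans hz
    refine nn_le_comp (by positivity) fun a => ?_
    have h1 := (M.Qg i a).schwarz (fun z hz => hQb i z a hz) (hz.trans hr.le)
    refine h1.trans (mul_le_mul_of_nonneg_left ?_ (by norm_num))
    refine (pow_le_pow_left₀ (norm_nonneg _) hz _).trans ?_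
    exact pow_le_pow_of_le_one hr0 hr.le (M.li i)
  set C2 : ℝ := C * (4 * (N + 1) + 1) with hC2
  have hlimj : ∀ j, ∃ g : (Fin m → ℂ) → ℂ, DifferentiableOn ℂ g (Bal m) ∧
      ∀ z ∈ Bal m, Tendsto (fun k => sq k (WithLp.toLp 2 z) j) atTop (𝓝 (g z)) := by
    intro j
    refine limit_on (u := fun k z => sq k (WithLp.toLp 2 z) j)
      (fun k => ?_) hηs (C1 := C2) (M := B) (fun k r hr0 hr1 z hz => ?_)
      (fun k z hz => (comp_le_nn _ j).trans (hsize k _ (hgood k) _ (toLp_lt hz).le))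
    · obtain ⟨b', hb'⟩ := (hgood k).1 j
      exact toLp_diffOn hb'
    · have hy1 : ‖(WithLp.toLp 2 z : E m)‖ ≤ r := toLp_le hr0.le hz
      have h1 := hnx2 k _ (hgood k) (WithLp.toLp 2 z) (by linarith) j
      rw [← hsqs] at h1
      refine h1.trans ?_
      have h2 := hQr k _ r hy1 hr1
      have h3 : 0 ≤ r ^ k := by positivity
      have h4 := hη0 k
      rw [hC2, mul_assoc]
      refine mul_le_mul_of_nonneg_left ?_ hC0.le
      have h5 : 0 ≤ 4 * ((N:ℝ) + 1) * η k := by positivity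
      have h6 : (4 * ((N:ℝ) + 1) + 1) * (η k + r ^ k) = 4 * (N + 1) * η k + η k +
        (4 * (N + 1)) * r ^ k + r ^ k := by ring
      rw [h6]
      linarith
  choose g hg1 hg2 using hlimj
  refine ⟨g, hg1, fun z hz => ?_, fun z hz => ?_⟩
  · have h1 : Tendsto (fun k => nsq (sq k (WithLp.toLp 2 z))) atTop
        (𝓝 (nsq (fun j => g j z))) := by
      unfold nsq
      exact tendsto_finsetSum _ fun j _ => ((hg2 j z hz).norm).pow 2
    exact le_of_tendsto h1 (Eventually.of_forall fun k => hsize2 k _ (hgood k) _ (toLp_lt hz).le)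
  · have h1 : Tendsto (fun k => ∑ j, F k (WithLp.toLp 2 z) j * sq k (WithLp.toLp 2 z) j) atTop
        (𝓝 (∑ j, f (WithLp.toLp 2 z) j * g j z)) :=
      tendsto_finsetSum _ fun j _ => (hlim _ (toLp_lt hz) j).mul (hg2 j z hz)
    have h2 : (fun k => ∑ j, F k (WithLp.toLp 2 z) j * sq k (WithLp.toLp 2 z) j) =
        fun _ => (1:ℂ) := by
      funext k
      exact (hgood k).2.1 _ (toLp_lt hz).le
    rw [h2] at h1
    exact tendsto_nhds_unique h1 tendsto_const_nhds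

end Pool.Agent.K9h23.Big
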