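import Mathlib
import Pool.Agent.K9h23.Big.Rec
import Pool.Agent.K9h23.Mix.Dm
import Pool.Agent.K9h23.Loc.Cst

/-!
Homogeneous expansions in blocks with gaps: the abstract theorem without a bound on the sum of the
large blocks.
-/

set_option autoImplicit false

open MeasureTheory Set Complex Metric Filter Topology
open scoped Real

namespace Pool.Agent.K9h23.Big

open Pool.Agent.K9h23.Hom Pool.Agent.K9h23.Bnd Pool.Agent.K9h23.Mix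
open Pool.Agent.K9h23.Lac (nsq nsq_nonneg nsq_cont nsq_c nn nn_nonneg nn_sq nn_add_le le_nsq
  nsq_smul' bd bd_le_nn comp_le_nn nsq_conj nn_le_comp Bal isOpen_Bal)
open Pool.Agent.K9h23.Loc (sn Ht Qu_t et_t nn_sn_z norm_eighth)

variable {m N : ℕ} {d : ℕ} {l u : ℕ → ℕ} {H : ℕ → E m → Fin N → ℂ} {f : E m → Fin N → ℂ}

/-- the hypotheses on the blocks -/
structure HB (c : ℝ) (K : ℕ) (W : Set ℕ) (s : ℕ → ℝ) (d : ℕ) (l u : ℕ → ℕ)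
    (H : ℕ → E m → Fin N → ℂ) : Prop where
  sup : ∀ i, et (Du d u) l i ≤ c
  gap : ∀ I, ∑ i ∈ Finset.range I, s i * et (Du d u) l i ≤ c
  s0 : ∀ i, 0 ≤ s i
  s1 : ∀ i, s i ≤ 1
  sW : ∀ i ∈ W, s i = 1
  sQ : ∀ i, i ∉ W → ∀ z, ‖z‖ < 1 → nn (Qu l u H i z) ≤ s i
  lg : ∀ i ∈ W, u i ≤ K * l i
  sc : ∀ i, i ∉ W → s i ≤ c

theorem HB.mono {c c' : ℝ} {K : ℕ} {W : Set ℕ} {s : ℕ → ℝ} (h : HB c K W s d l u H)
    (hc : c ≤ c') : HB c' K W s d l u H :=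
  ⟨fun i => (h.sup i).trans hc, fun I => (h.gap I).trans hc, h.s0, h.s1, h.sW, h.sQ, h.lg,
    fun i hi => (h.sc i hi).trans hc⟩

/-- **Main theorem**, abstract form. -/
theorem mmainB (m N K : ℕ) (hK : 1 ≤ K) {δ : ℝ} (hδ : 0 < δ) (hδ1 : δ ≤ 1) :
    ∃ A : ℝ, 4 ≤ A ∧ ∃ P1 : ℝ, 1 ≤ P1 ∧ ∀ P0 Λ0 : ℝ, P1 ≤ P0 → 0 ≤ Λ0 →
    ∃ c : ℝ, 0 < c ∧ ∀ (d : ℕ) (l u : ℕ → ℕ) (W : Set ℕ) (s : ℕ → ℝ)
    (H : ℕ → E m → Fin N → ℂ) (f : E m → Fin N → ℂ), 1 ≤ d → DM d l u H f →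
    (∀ z, ‖z‖ < 1 → δ ≤ nn (f z)) → HB c K W s d l u H →
    ∀ h0 : E m → Fin N → ℂ, (∀ j, ∃ b', Lc b' (Λ0 * Real.sqrt d) (fun z => h0 z j)) →
    (∀ z, ‖z‖ ≤ 1 → bd (Fu d u H 0 z) (h0 z) = 1) →
    (∀ z, ‖z‖ ≤ 1 → nsq (h0 z) * Real.exp (-(A * nsq (Fu d u H 0 z))) ≤ P0) →
    ∃ g : Fin N → (Fin m → ℂ) → ℂ, (∀ j, DifferentiableOn ℂ (g j) (Bal m)) ∧
      (∀ z ∈ Bal m, nsq (fun j => g j z) ≤ P0 * Real.exp 1 * Real.exp (4 * A)) ∧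
      ∀ z ∈ Bal m, ∑ j, f (WithLp.toLp 2 z) j * g j z = 1 := by
  obtain ⟨c1, hc1, hc15, hbd⟩ := DM.bounds N hδ hδ1
  obtain ⟨A, hA, P1, hP1, hr⟩ := rmainB m N K hK (δ := δ / 2) (by positivity) (by linarith)
  refine ⟨A, hA, P1, hP1, fun P0 Λ0 hP0 hΛ0 => ?_⟩
  obtain ⟨c, hc, hr⟩ := hr P0 Λ0 hP0 hΛ0
  have hA2 : 0 < 100 * A ^ 2 := by positivity
  refine ⟨min c (min c1 (1 / (100 * A ^ 2))), lt_min hc (lt_min hc1 (by positivity)),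
    fun d l u W s H f hd D hfl B h0 hh0 hh1 hg0 => ?_⟩
  have hDu1 : ∀ i, 1 ≤ Du d u i := fun i => hd.trans (D.Du_ge i)
  have hFb : ∀ i z, ‖z‖ ≤ 1 → δ / 2 ≤ nn (Fu d u H i z) ∧ nn (Fu d u H i z) ≤ 2 := fun i =>
    hbd m d l u H f D hfl (fun i => (B.sup i).trans ((min_le_right _ _).trans (min_le_left _ _)))
      i (hDu1 i)
  have hQc : ∀ i, Continuous (fun z => Qu l u H i z) := fun i =>
    continuous_pi fun j => (D.Qg i j).diff.continuous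
  have hsQ : ∀ i, i ∉ W → ∀ z, ‖z‖ ≤ 1 → nn (Qu l u H i z) ≤ s i := fun i hi z hz =>
    le_closed (nn_cont.comp (hQc i)) (B.sQ i hi) hz
  have M : Md A (δ / 2) K W s (Du d u) l (Fu d u H) (Qu l u H) := by
    refine ⟨B.s0, B.s1, B.sW, hsQ,
      hDu1, fun i => (D.Du_lt i).le, fun i => ?_, fun i => D.lu i, fun i => D.lm.le_apply,
      D.Fg, D.Qg, D.succ, hFb, B.lg, fun i hi z hz => ?_⟩
    · have := D.Du_lt i
      have := hDu1 i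
      omega
    · have h1 := hsQ i hi z hz
      have h2 : s i ≤ 1 / (100 * A ^ 2) :=
        (B.sc i hi).trans ((min_le_right _ _).trans (min_le_right _ _))
      have h3 : nn (Qu l u H i z) * (100 * A ^ 2) ≤ 1 := by
        have h4 := h1.trans h2
        rwa [le_div_iff₀ hA2] at h4
      rw [← nn_sq, ← mul_pow]
      exact pow_le_one₀ (mul_nonneg (nn_nonneg _) hA2.le) h3
  exact hr W s (Du d u) l (Fu d u H) (Qu l u H) f M (fun i => (B.sup i).trans (min_le_left _ _))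
    (fun I => (B.gap I).trans (min_le_left _ _))
    (fun z hz j => D.tend hz j) h0 hh0 hh1 hg0

theorem hb_t (D : DM d l u H f) (hd : 1 ≤ d) {M B0 : ℕ} (hM : M < l 0) (hMB : M = B0 * d)
    (hB0 : 1 ≤ B0) (p : E m) (a : Fin N → ℂ) {c : ℝ} (hc : 0 ≤ c) {K : ℕ} {W : Set ℕ}
    {s : ℕ → ℝ} (B : HB c K W s d l u H) :
    HB (Real.sqrt B0 * c) K W s M l u (Ht M d p a H) := by
  have hdM : d ≤ M := by rw [hMB]; exact Nat.le_mul_of_pos_left d hB0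
  have h1 : 1 ≤ Real.sqrt B0 := Real.one_le_sqrt.2 (by exact_mod_cast hB0)
  have hQ := Qu_t D hd hdM hM p a
  have hQn : ∀ i z, nn (Qu l u (Ht M d p a H) i z) = 1 / 8 * nn (Qu l u H i z) := by
    intro i z
    rw [hQ, nn_sn_z, Mix.nn_smul, norm_eighth]
  refine ⟨fun i => ?_, fun I => ?_, B.s0, B.s1, B.sW, fun i hi z hz => ?_, B.lg,
    fun i hi => ?_⟩
  · exact (et_t hMB hB0 i).trans (mul_le_mul_of_nonneg_left (B.sup i) (by linarith))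
  · refine le_trans ?_ (mul_le_mul_of_nonneg_left (B.gap I) (by linarith : 0 ≤ Real.sqrt B0))
    rw [Finset.mul_sum]
    refine Finset.sum_le_sum fun i _ => ?_
    refine (mul_le_mul_of_nonneg_left (et_t hMB hB0 i) (B.s0 i)).trans (le_of_eq ?_)
    ring
  · rw [hQn]
    have h2 := B.sQ i hi z hz
    have h3 := nn_nonneg (Qu l u H i z)
    linarith
  · have h2 := B.sc i hi
    nlinarith

end Pool.Agent.K9h23.Big
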