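import Mathlib
import Pool.Agent.K9h23.Big.Loc

/-!
Functions with expansions in sparse bands: local solutions for `q - μ`, if `q` stays away from `μ`
near a boundary point.
-/

set_option autoImplicit false

open Complex Set Metric Filter Topology MvPolynomial
open scoped Real

namespace Pool.Agent.K9h23.Big

open Pool.Agent.K9h23.Hom Pool.Agent.K9h23.Bnd Pool.Agent.K9h23.Loc
open Pool.Agent.K9h23.Mix (Du et et_nonneg Qu Fu DM)
open Pool.Agent.K9h23.Lac (nsq nsq_nonneg nn nn_nonneg nn_sq bd comp_le_nn nn_le_comp)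

/-- sparse blocks; the blocks with index in `W` are bands, the others are small -/
structure Sp (K : ℕ) (W : Set ℕ) (s : ℕ → ℝ) (l u : ℕ → ℕ) : Prop where
  order : ∀ i, l i ≤ u i ∧ u i < l (i + 1)
  nonneg : ∀ i, 0 ≤ s i
  bands : ∀ i ∈ W, s i = 1 ∧ u i ≤ K * l i
  small : ∀ ε : ℝ, 0 < ε → ∀ᶠ i in atTop,
    Real.sqrt (u i) / Real.sqrt (l (i + 1)) ≤ ε ∧ (i ∉ W → s i ≤ ε)
  sum : Summable fun i => s (i + 1) * (Real.sqrt (u i) / Real.sqrt (l (i + 1)))

/-- `f` is bounded and holomorphic, its expansion is supported in finitely many degrees and the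
blocks, the small blocks are `O(s_i)` -/
def InB {n : ℕ} (W : Set ℕ) (s : ℕ → ℝ) (l u : ℕ → ℕ) (f : E n → ℂ) : Prop :=
  (DifferentiableOn ℂ f (ball 0 1) ∧ ∃ M : ℝ, ∀ z ∈ ball (0 : E n) 1, ‖f z‖ ≤ M) ∧
  ∃ (d : ℕ) (M : ℝ) (P : ℕ → MvPolynomial (Fin n) ℂ), (∀ k, (P k).IsHomogeneous k) ∧
    (∀ k, d < k → (∀ i, ¬ (l i ≤ k ∧ k ≤ u i)) → P k = 0) ∧
    (∀ z ∈ ball (0 : E n) 1, HasSum (fun k => eval z.ofLp (P k)) (f z)) ∧
    ∀ i, i ∉ W → ∀ z ∈ ball (0 : E n) 1,
      ‖∑ k ∈ Finset.Icc (l i) (u i), eval z.ofLp (P k)‖ ≤ M * s i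

/-- **Local solutions.** -/
theorem blk_local {n m K : ℕ} {W : Set ℕ} {s : ℕ → ℝ} {l u : ℕ → ℕ} (S : Sp K W s l u)
    (q : Fin m → E n → ℂ) (hq : ∀ i, InB W s l u (q i)) (μ : Fin m → ℂ) {p : E n}
    (hp : ‖p‖ = 1) {ρ η : ℝ} (hρ : 0 < ρ) (hη : 0 < η)
    (hlow : ∀ z, ‖z‖ < 1 → ‖z - p‖ < ρ → η ≤ ∑ i, ‖q i z - μ i‖) :
    ∃ G : Fin m → E n → ℂ, (∀ j, DifferentiableOn ℂ (G j) (ball 0 1)) ∧
      (∃ C : ℝ, ∀ j, ∀ z ∈ ball (0 : E n) 1, ‖G j z‖ ≤ C) ∧ ∃ ρ' : ℝ, 0 < ρ' ∧
      ∀ z, ‖z‖ < 1 → ‖z - p‖ < ρ' → ‖∑ i, (q i z - μ i) * G i z - 1‖ ≤ 1 / 2 := by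
  have hqb : ∀ i, ∃ M : ℝ, ∀ z ∈ ball (0 : E n) 1, ‖q i z‖ ≤ M := fun i => (hq i).1.2
  choose Mq hMq using hqb
  have hqe : ∀ i, _ := fun i => (hq i).2
  choose d M P hP hsp hsum hsm using hqe
  -- constants
  set M0 : ℝ := 1 + ∑ i, (|Mq i| + ‖μ i‖) with hM0
  have hM0s : 0 ≤ ∑ i, (|Mq i| + ‖μ i‖) := Finset.sum_nonneg fun i _ => by positivity
  have hM01 : 1 ≤ M0 := by rw [hM0]; linarith
  have hqM : ∀ i z, ‖z‖ < 1 → ‖q i z - μ i‖ ≤ M0 := by
    intro i z hz
    have h1 := hMq i z (mem_ball_zero_iff.2 hz)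
    have h2 : |Mq i| + ‖μ i‖ ≤ ∑ i, (|Mq i| + ‖μ i‖) :=
      Finset.single_le_sum (f := fun i => |Mq i| + ‖μ i‖) (fun i _ => by positivity)
        (Finset.mem_univ i)
    have h3 := le_abs_self (Mq i)
    refine (norm_sub_le _ _).trans ?_
    rw [hM0]
    linarith
  set κ : ℝ := 1 / ((m + 1) * M0 + 2) with hκ
  have hden : 2 ≤ (m + 1) * M0 + 2 := by
    have : 0 ≤ ((m:ℝ) + 1) * M0 := by positivity
    linarith
  have hκ0 : 0 < κ := by rw [hκ]; positivity
  have hκ1 : κ * ((m + 1) * M0 + 2) = 1 := by rw [hκ]; field_simp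
  have hκ2 : κ ≤ 1 := by nlinarith
  obtain ⟨T', hT'⟩ := exists_nat_ge (8 / (ρ ^ 2 / 2))
  set T : ℕ := T' + 1 with hT
  have hT1 : 1 ≤ T := by omega
  have hT8 : 8 ≤ (T:ℝ) * (ρ ^ 2 / 2) := by
    rw [div_le_iff₀ (by positivity)] at hT'
    refine hT'.trans (mul_le_mul_of_nonneg_right ?_ (by positivity))
    rw [hT]; push_cast; linarith
  set F : E n → Fin (m + 1) → ℂ := fun z =>
    sn (fun i => (κ:ℂ) * (q i z - μ i)) ((κ:ℂ) * gf T (inner ℂ p z)) with hF
  have hκn : ‖(κ:ℂ)‖ = κ := by rw [Complex.norm_real, Real.norm_of_nonneg hκ0.le]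
  have hnsF : ∀ z, nsq (F z) = κ ^ 2 * (nsq (fun i => q i z - μ i) + ‖gf T (inner ℂ p z)‖ ^ 2) := by
    intro z
    rw [hF]
    beta_reduce
    rw [nsq_sn, Lac.nsq_smul', norm_mul, hκn]
    ring
  have hF1 : ∀ z, ‖z‖ < 1 → nn (F z) ≤ 1 := by
    intro z hz
    refine Pool.Agent.K9h23.Lac.nn_le_of zero_le_one ?_
    rw [hnsF, ← nn_sq]
    have h1 : nn (fun i => q i z - μ i) ≤ (m + 1) * M0 :=
      nn_le_comp (by linarith) fun i => hqM i z hz
    have h2 := gf_le hT1 (inner_le_one' hp hz.le)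
    have h3 := nn_nonneg (fun i => q i z - μ i)
    have h4 := norm_nonneg (gf T (inner ℂ p z))
    have h5 : nn (fun i => q i z - μ i) ^ 2 + ‖gf T (inner ℂ p z)‖ ^ 2 ≤
        ((m + 1) * M0 + 2) ^ 2 := by nlinarith
    calc κ ^ 2 * (nn (fun i => q i z - μ i) ^ 2 + ‖gf T (inner ℂ p z)‖ ^ 2) ≤
          κ ^ 2 * ((m + 1) * M0 + 2) ^ 2 := mul_le_mul_of_nonneg_left h5 (by positivity)
      _ = (κ * ((m + 1) * M0 + 2)) ^ 2 := by ring
      _ = 1 ^ 2 := by rw [hκ1]
  set δ : ℝ := κ * min (η / (m + 1)) (3 / 4) with hδ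
  have hδ0 : 0 < δ := mul_pos hκ0 (lt_min (by positivity) (by norm_num))
  have hFlow : ∀ z, ‖z‖ < 1 → δ ≤ nn (F z) := by
    intro z hz
    have hb : κ * nn (fun i => q i z - μ i) ≤ nn (F z) := by
      unfold nn
      rw [hnsF, Real.sqrt_mul (sq_nonneg _), Real.sqrt_sq hκ0.le]
      refine mul_le_mul_of_nonneg_left (Real.sqrt_le_sqrt ?_) hκ0.le
      nlinarith [sq_nonneg ‖gf T (inner ℂ p z)‖]
    have hb' : κ * ‖gf T (inner ℂ p z)‖ ≤ nn (F z) := by
      unfold nn
      rw [hnsF, Real.sqrt_mul (sq_nonneg _), Real.sqrt_sq hκ0.le]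
      refine mul_le_mul_of_nonneg_left (Real.le_sqrt_of_sq_le ?_) hκ0.le
      linarith [nsq_nonneg (fun i => q i z - μ i)]
    rcases lt_or_ge ‖z - p‖ ρ with h | h
    · have h1 := hlow z hz h
      have h2 : ∑ i, ‖q i z - μ i‖ ≤ m * nn (fun i => q i z - μ i) := by
        refine (Finset.sum_le_card_nsmul _ _ (nn (fun i => q i z - μ i)) fun i _ =>
          comp_le_nn (fun i => q i z - μ i) i).trans (le_of_eq ?_)
        rw [nsmul_eq_mul, Finset.card_univ, Fintype.card_fin]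
      have h3 : η / (m + 1) ≤ nn (fun i => q i z - μ i) := by
        rw [div_le_iff₀ (by positivity)]
        have := nn_nonneg (fun i => q i z - μ i)
        linarith
      refine le_trans ?_ hb
      exact mul_le_mul_of_nonneg_left ((min_le_left _ _).trans h3) hκ0.le
    · have h1 : ρ ^ 2 / 2 ≤ ‖1 - (inner ℂ p z : ℂ)‖ := by
        have h2 : ‖z - p‖ ^ 2 = ‖z‖ ^ 2 - 2 * (inner ℂ z p : ℂ).re + ‖p‖ ^ 2 := by
          have := @norm_sub_sq ℂ (E n) _ _ _ z p
          simpa using this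
        have h3 : (inner ℂ z p : ℂ).re = (inner ℂ p z : ℂ).re := by
          rw [← inner_conj_symm, Complex.conj_re]
        have h4 := Complex.re_le_norm (1 - (inner ℂ p z : ℂ))
        rw [Complex.sub_re, Complex.one_re] at h4
        have h5 : ρ ^ 2 ≤ ‖z - p‖ ^ 2 := pow_le_pow_left₀ hρ.le h 2
        rw [h2, h3, hp] at h5
        nlinarith [norm_nonneg z]
      have h2 : 8 ≤ (T:ℝ) * ‖1 - (inner ℂ p z : ℂ)‖ :=
        hT8.trans (mul_le_mul_of_nonneg_left h1 (Nat.cast_nonneg _))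
      have h3 := gf_far hT1 (inner_le_one' hp hz.le) h2
      refine le_trans ?_ hb'
      exact mul_le_mul_of_nonneg_left ((min_le_right _ _).trans h3) hκ0.le
  have hδ1 : δ ≤ 1 := by
    have h0 : ‖(0 : E n)‖ < 1 := by rw [norm_zero]; exact one_pos
    exact (hFlow 0 h0).trans (hF1 0 h0)
  set M1 : ℝ := ∑ i, |M i| with hM1
  have hM10 : 0 ≤ M1 := Finset.sum_nonneg fun i _ => abs_nonneg _
  set M2 : ℝ := (m + 1) * M1 + 1 with hM2
  have hM21 : 1 ≤ M2 := by
    have : 0 ≤ ((m:ℝ) + 1) * M1 := by positivity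
    rw [hM2]; linarith
  have hM20 : 0 < M2 := by linarith
  obtain ⟨c, hc, hg⟩ := glob2 n (m + 1) (K + 1) (by omega) hδ0 hδ1
  set a : ℕ → ℝ := fun i => s (i + 1) * (Real.sqrt (u i) / Real.sqrt (l (i + 1))) with ha
  have ha0 : ∀ i, 0 ≤ a i := fun i => mul_nonneg (S.nonneg _) (by positivity)
  have ht : ∀ᶠ i in atTop, ∑' k, a (k + i) ≤ c / M2 :=
    ((tendsto_sum_nat_add a).eventually (gt_mem_nhds (by positivity : 0 < c / M2))).mono
      fun i hi => hi.le
  obtain ⟨r1, hr1⟩ := eventually_atTop.1 ((S.small (min c 1 / M2)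
    (div_pos (lt_min hc one_pos) hM20)).and ht)
  obtain ⟨dm, hdm⟩ : ∃ dm, ∀ i, d i ≤ dm := ⟨∑ i, d i, fun i =>
    Finset.single_le_sum (f := d) (fun _ _ => Nat.zero_le _) (Finset.mem_univ i)⟩
  have hum : StrictMono u := strictMono_nat_of_lt_succ fun i =>
    (S.order i).2.trans_le (S.order (i + 1)).1
  have hui : ∀ i, i ≤ u i := fun i => hum.le_apply
  set r : ℕ := r1 + dm + T with hr
  have hrr : ∀ i, r1 ≤ i + r := fun i => by omega
  set d' : ℕ := u r with hd'
  have hd'r : r ≤ d' := hui r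
  have hd'1 : 1 ≤ d' := by omega
  set l' : ℕ → ℕ := fun i => l (i + (r + 1)) with hl'
  set u' : ℕ → ℕ := fun i => u (i + (r + 1)) with hu'
  set H : ℕ → E n → Fin (m + 1) → ℂ := fun k z =>
    sn (fun i => (κ:ℂ) * (eval z.ofLp (P i k) + (if k = 0 then -μ i else 0)))
      ((κ:ℂ) * cf T k (inner ℂ p z)) with hH
  have hPk : ∀ i k, d' < k → (∀ j, ¬ (l' j ≤ k ∧ k ≤ u' j)) → P i k = 0 := by
    intro i k hk hkl
    refine hsp i k (by have := hdm i; omega) fun j hj => ?_
    rcases Nat.lt_or_ge r j with h | h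
    · refine hkl (j - (r + 1)) ?_
      rw [hl', hu']
      beta_reduce
      have e : j - (r + 1) + (r + 1) = j := by omega
      rw [e]
      exact hj
    · have h1 := hum.monotone h
      omega
  have D : DM d' l' u' H F := by
    refine ⟨fun k j => ?_, fun z hz j => ?_, fun k hk hkl z j => ?_, hF1, ?_,
      fun i => (S.order _).1, fun i => ?_⟩
    · refine Fin.lastCases ?_ (fun j => ?_) j
      · have e : (fun z => H k z (Fin.last m)) =
            fun z => (κ:ℂ) * cf T k (inner ℂ p z) := funext fun z => sn_l _ _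
        rw [e]
        exact (Hm.cfi T k p).smul _
      · have e : (fun z => H k z j.castSucc) = fun z => (κ:ℂ) *
            (eval z.ofLp (P j k) + (if k = 0 then -μ j else 0)) := funext fun z => sn_c _ _ _
        rw [e]
        refine Bnd.Hm.smul (Bnd.Hm.add ?_ (Hm.cst k (-μ j))) _
        exact HH_Hm (P := fun k (_ : Fin 1) => P j k) (fun k _ => hP j k) k 0
    · refine Fin.lastCases ?_ (fun j => ?_) j
      · have e : (fun k => H k z (Fin.last m)) =
            fun k => (κ:ℂ) * cf T k (inner ℂ p z) := funext fun k => sn_l _ _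
        have e' : F z (Fin.last m) = (κ:ℂ) * gf T (inner ℂ p z) := sn_l _ _
        rw [e, e']
        exact (cf_hasSum hT1 _).mul_left _
      · have e : (fun k => H k z j.castSucc) = fun k => (κ:ℂ) *
            (eval z.ofLp (P j k) + (if k = 0 then -μ j else 0)) := funext fun k => sn_c _ _ _
        have e' : F z j.castSucc = (κ:ℂ) * (q j z - μ j) := sn_c _ _ _
        rw [e, e', sub_eq_add_neg]
        have h1 : HasSum (fun k => if k = 0 then -μ j else 0) (-μ j) := hasSum_ite_eq 0 (-μ j)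
        exact ((hsum j z (mem_ball_zero_iff.2 hz)).add h1).mul_left _
    · refine Fin.lastCases ?_ (fun j => ?_) j
      · have e : H k z (Fin.last m) = (κ:ℂ) * cf T k (inner ℂ p z) := sn_l _ _
        rw [e, cf_zero hT1 (by omega), mul_zero]
      · have e : H k z j.castSucc = (κ:ℂ) *
            (eval z.ofLp (P j k) + (if k = 0 then -μ j else 0)) := sn_c _ _ _
        rw [e, hPk j k hk hkl, map_zero, if_neg (by omega), add_zero, mul_zero]
    · have h1 := (S.order r).2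
      have e : l' 0 = l (r + 1) := by rw [hl']; beta_reduce; rw [zero_add]
      rw [e]
      exact h1
    · have h1 := (S.order (i + (r + 1))).2
      have e : l' (i + 1) = l (i + (r + 1) + 1) := by
        rw [hl']; beta_reduce; congr 1; omega
      rw [e]
      exact h1
  have het : ∀ i, et (Du d' u') l' i =
      Real.sqrt (u (i + r)) / Real.sqrt (l (i + r + 1)) := by
    intro i
    unfold et
    cases i with
    | zero =>
      change Real.sqrt (d' : ℝ) / Real.sqrt (l (0 + (r + 1)) : ℝ) = _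
      rw [hd', zero_add, zero_add]
    | succ i =>
      change Real.sqrt (u (i + (r + 1)) : ℝ) / Real.sqrt (l (i + 1 + (r + 1)) : ℝ) = _
      have e1 : i + (r + 1) = i + 1 + r := by omega
      have e2 : i + 1 + (r + 1) = i + 1 + r + 1 := by omega
      rw [e1, e2]
  set s' : ℕ → ℝ := fun i => M2 * s (i + (r + 1)) with hs'
  classical
  set s'' : ℕ → ℝ := fun i => if i + (r + 1) ∈ W then 1 else s' i with hs''
  have hsS : ∀ i, i + (r + 1) ∉ W → s' i ≤ min c 1 := by
    intro i hi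
    have h1 := (hr1 (i + (r + 1)) (by omega)).1.2 hi
    rw [le_div_iff₀ hM20] at h1
    rw [hs']
    beta_reduce
    linarith
  have hQ : ∀ i z, Qu l' u' H i z = sn (fun a => (κ:ℂ) *
      ∑ k ∈ Finset.Icc (l (i + (r + 1))) (u (i + (r + 1))), eval z.ofLp (P a k)) 0 := by
    intro i z
    have hlk : ∀ k ∈ Finset.Icc (l' i) (u' i), T ≤ k ∧ k ≠ 0 := by
      intro k hk
      have h1 := (Finset.mem_Icc.1 hk).1
      have h2 := D.Du_lt i
      have h3 := D.Du_ge i
      omega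
    refine sn_ext (fun j => ?_) ?_
    · unfold Qu
      rw [Finset.mul_sum]
      refine Finset.sum_congr rfl fun k hk => ?_
      have e : H k z j.castSucc = (κ:ℂ) *
            (eval z.ofLp (P j k) + (if k = 0 then -μ j else 0)) := sn_c _ _ _
      rw [e, if_neg (hlk k hk).2, add_zero]
    · unfold Qu
      refine Finset.sum_eq_zero fun k hk => ?_
      have e : H k z (Fin.last m) = (κ:ℂ) * cf T k (inner ℂ p z) := sn_l _ _
      rw [e, cf_zero hT1 (hlk k hk).1, mul_zero]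
  have B : HB c (K + 1) {i | i + (r + 1) ∈ W} s'' d' l' u' H := by
    refine ⟨fun i => ?_, fun I => ?_, fun i => ?_, fun i => ?_, fun i hi => ?_,
      fun i hi z hz => ?_, fun i hi => ?_, fun i hi => ?_⟩
    · rw [het]
      have h1 := (hr1 (i + r) (hrr i)).1.1
      refine h1.trans ?_
      rw [div_le_iff₀ hM20]
      have := min_le_left c 1
      nlinarith
    · have h1 : ∀ i ∈ Finset.range I, s'' i * et (Du d' u') l' i ≤ M2 * a (i + r) := by
        intro i _
        rw [het, ha]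
        beta_reduce
        have h2 : 0 ≤ Real.sqrt (u (i + r)) / Real.sqrt (l (i + r + 1)) := by positivity
        rw [← mul_assoc]
        refine mul_le_mul_of_nonneg_right ?_ h2
        have e : i + (r + 1) = i + r + 1 := by omega
        rw [hs'', hs']
        beta_reduce
        rw [e]
        split_ifs with h
        · rw [(S.bands _ h).1]
          linarith
        · exact le_rfl
      refine (Finset.sum_le_sum h1).trans ?_
      rw [← Finset.mul_sum]
      have h2 : Summable (fun k => a (k + r)) := (summable_nat_add_iff r).2 S.sum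
      have h3 := (h2.sum_le_tsum (Finset.range I) fun i _ => ha0 _).trans (hr1 r (by omega)).2
      rw [le_div_iff₀ hM20] at h3
      linarith
    · rw [hs'']
      beta_reduce
      split_ifs
      · exact zero_le_one
      · exact mul_nonneg hM20.le (S.nonneg _)
    · rw [hs'']
      beta_reduce
      split_ifs with h
      · exact le_rfl
      · exact (hsS i h).trans (min_le_right _ _)
    · have hi' : i + (r + 1) ∈ W := hi
      rw [hs'']
      beta_reduce
      rw [if_pos hi']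
    · have hi' : i + (r + 1) ∉ W := hi
      have h1 : s'' i = M2 * s (i + (r + 1)) := by
        rw [hs'']
        beta_reduce
        rw [if_neg hi']
      rw [hQ, nn_sn_z, Mix.nn_smul, hκn, h1]
      have h2 : nn (fun a => ∑ k ∈ Finset.Icc (l (i + (r + 1))) (u (i + (r + 1))),
          eval z.ofLp (P a k)) ≤ (m + 1) * (M1 * s (i + (r + 1))) := by
        refine nn_le_comp (mul_nonneg hM10 (S.nonneg _)) fun a => ?_
        refine (hsm a _ hi z (mem_ball_zero_iff.2 hz)).trans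
          (mul_le_mul_of_nonneg_right ?_ (S.nonneg _))
        exact (le_abs_self _).trans (Finset.single_le_sum (f := fun i => |M i|)
          (fun _ _ => abs_nonneg _) (Finset.mem_univ a))
      have h3 := nn_nonneg (fun a => ∑ k ∈ Finset.Icc (l (i + (r + 1))) (u (i + (r + 1))),
          eval z.ofLp (P a k))
      have h4 : κ * nn (fun a => ∑ k ∈ Finset.Icc (l (i + (r + 1))) (u (i + (r + 1))),
          eval z.ofLp (P a k)) ≤ 1 * ((m + 1) * (M1 * s (i + (r + 1)))) :=
        mul_le_mul hκ2 h2 h3 zero_le_one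
      refine h4.trans ?_
      rw [hM2]
      have h5 := S.nonneg (i + (r + 1))
      nlinarith
    · exact (S.bands _ hi).2.trans (Nat.mul_le_mul_right _ (Nat.le_succ K))
    · have hi' : i + (r + 1) ∉ W := hi
      rw [hs'']
      beta_reduce
      rw [if_neg hi']
      exact (hsS i hi).trans (min_le_left _ _)
  obtain ⟨C, hC⟩ := hg d' hd'1
  obtain ⟨G, h1, h2, h3⟩ := hC l' u' _ s'' H F D hFlow B
  have hC0 : 0 ≤ C := by
    have h0 : (0 : E n) ∈ ball (0 : E n) 1 := mem_ball_self one_pos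
    exact (norm_nonneg _).trans (h2 (Fin.last m) 0 h0)
  refine ⟨fun j z => (κ:ℂ) * G j.castSucc z, fun j => (h1 _).const_mul _, ⟨C, fun j z hz => ?_⟩,
    1 / (2 * (T * C + 1)), by positivity, fun z hz hzp => ?_⟩
  · rw [norm_mul, hκn]
    have h4 := h2 j.castSucc z hz
    have h5 := norm_nonneg (G j.castSucc z)
    nlinarith
  · have h4 := h3 z (mem_ball_zero_iff.2 hz)
    rw [Fin.sum_univ_castSucc] at h4
    have e1 : ∀ j : Fin m, F z j.castSucc = (κ:ℂ) * (q j z - μ j) := fun j => sn_c _ _ _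
    have e2 : F z (Fin.last m) = (κ:ℂ) * gf T (inner ℂ p z) := sn_l _ _
    simp_rw [e1, e2] at h4
    have h5 : ∑ i, (q i z - μ i) * ((κ:ℂ) * G i.castSucc z) - 1 =
        -((κ:ℂ) * gf T (inner ℂ p z) * G (Fin.last m) z) := by
      rw [← h4]
      have h6 : ∑ i, (q i z - μ i) * ((κ:ℂ) * G i.castSucc z) =
          ∑ i, (κ:ℂ) * (q i z - μ i) * G i.castSucc z :=
        Finset.sum_congr rfl fun i _ => by ring
      rw [h6]
      ring
    rw [h5, norm_neg, norm_mul, norm_mul, hκn]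
    have hw : ‖1 - (inner ℂ p z : ℂ)‖ ≤ ‖z - p‖ := by
      have e1 : 1 - (inner ℂ p z : ℂ) = inner ℂ p (p - z) := by
        rw [inner_sub_right, inner_self_eq_norm_sq_to_K, hp]
        norm_num
      rw [e1, norm_sub_rev]
      refine (norm_inner_le_norm _ _).trans ?_
      rw [hp, one_mul]
    have h6 : ‖gf T (inner ℂ p z)‖ ≤ T * ‖z - p‖ :=
      (gf_near hT1 (inner_le_one' hp hz.le)).trans
        (mul_le_mul_of_nonneg_left hw (Nat.cast_nonneg _))
    have h7 := h2 (Fin.last m) z (mem_ball_zero_iff.2 hz)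
    have hT0 : (0:ℝ) ≤ T := Nat.cast_nonneg _
    have h8 : κ * ‖gf T (inner ℂ p z)‖ ≤ 1 * (T * ‖z - p‖) :=
      mul_le_mul hκ2 h6 (norm_nonneg _) zero_le_one
    have h9 : κ * ‖gf T (inner ℂ p z)‖ * ‖G (Fin.last m) z‖ ≤ 1 * (T * ‖z - p‖) * C :=
      mul_le_mul h8 h7 (norm_nonneg _) (by positivity)
    refine h9.trans ?_
    rw [lt_div_iff₀ (by positivity)] at hzp
    have h10 : 0 ≤ ‖z - p‖ := norm_nonneg _
    nlinarith

end Pool.Agent.K9h23.Big
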