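import Mathlib
import Pool.Agent.K9h23.Big.Loc
import Pool.Agent.K9h23.Mix.Fn4

/-!
Expansions in blocks with gaps, polynomial form: all `d`, the constant `c` is independent of `d`.
-/

set_option autoImplicit false

open Complex Set Metric Filter Topology MvPolynomial
open scoped Real

namespace Pool.Agent.K9h23.Big

open Pool.Agent.K9h23.Hom Pool.Agent.K9h23.Bnd
open Pool.Agent.K9h23.Mix (PD SB Du et et_nonneg Qu Fu Lc DM zero_Bal)
open Pool.Agent.K9h23.Lac (nsq nsq_nonneg nsq_cont nsq_c nn nn_nonneg nn_sq nn_add_le le_nsq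
  nsq_smul' bd bd_le_nn comp_le_nn nsq_conj nn_le_comp Bal isOpen_Bal MP)

variable {n N : ℕ} {δ : ℝ} {d K : ℕ} {l u : ℕ → ℕ} {P : ℕ → Fin N → MP n}
  {f : Fin N → (Fin n → ℂ) → ℂ} {W : Set ℕ} {s : ℕ → ℝ}

theorem et_shift (d : ℕ) (l u : ℕ → ℕ) (i : ℕ) :
    et (Du (u 0) fun i => u (i + 1)) (fun i => l (i + 1)) i = et (Du d u) l (i + 1) := by
  unfold et
  cases i with
  | zero => rfl
  | succ i => rfl

/-- the exact shift -/
theorem HB.shift0 {c : ℝ} {H : ℕ → Hom.E n → Fin N → ℂ} (B : HB c K W s d l u H) :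
    HB c K {i | i + 1 ∈ W} (fun i => s (i + 1)) (u 0) (fun i => l (i + 1))
      (fun i => u (i + 1)) H := by
  refine ⟨fun i => ?_, fun I => ?_, fun i => B.s0 (i + 1), fun i => B.s1 (i + 1),
    fun i hi => B.sW (i + 1) hi, fun i hi z hz => B.sQ (i + 1) hi z hz,
    fun i hi => B.lg (i + 1) hi, fun i hi => B.sc (i + 1) hi⟩
  · rw [et_shift d]; exact B.sup (i + 1)
  · simp_rw [et_shift d]
    have h1 := B.gap (I + 1)
    rw [Finset.sum_range_succ'] at h1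
    have h0 : 0 ≤ s 0 * et (Du d u) l 0 := mul_nonneg (B.s0 0) (et_nonneg _ _ _)
    linarith

/-- the case of a small first block and `d = 0` -/
theorem pz (n N K : ℕ) (hK : 1 ≤ K) {δ : ℝ} (hδ : 0 < δ) (hδ1 : δ ≤ 1) :
    ∃ c : ℝ, 0 < c ∧ ∃ C : ℝ, ∀ (l u : ℕ → ℕ) (W : Set ℕ) (s : ℕ → ℝ)
    (P : ℕ → Fin N → MP n) (f : Fin N → (Fin n → ℂ) → ℂ), PD δ 0 l u P f →
    HB c K W s 0 l u (HH P) → 0 ∉ W → SB C f := by
  obtain ⟨A, hA, P1, hP1, hm⟩ := mmainB n N K hK hδ hδ1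
  have hδi : 1 ≤ 1 / δ := by rw [le_div_iff₀ hδ]; linarith
  set Λ0 : ℝ := 1 / δ * ((12 * 2 : ℝ) / (1 / 2) ^ 2) with hΛ0
  obtain ⟨c, hc, hm⟩ := hm (P1 + (2 / δ) ^ 2) Λ0 (by nlinarith [sq_nonneg (2 / δ)])
    (by rw [hΛ0]; positivity)
  refine ⟨min c (δ / 2), lt_min hc (by positivity),
    (P1 + (2 / δ) ^ 2) * Real.exp 1 * Real.exp (4 * A), fun l u W s P f D B h0W => ?_⟩
  set F0 : Fin N → ℂ := fun j => f j 0 with hF0
  have hF0n := D.fb 0 zero_Bal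
  rw [← hF0] at hF0n
  have hns : 0 < nsq F0 := lt_of_lt_of_le (by positivity) hF0n.1
  have hnn : δ ≤ nn F0 := by
    unfold nn
    exact Real.le_sqrt_of_sq_le hF0n.1
  have hnn0 : 0 < nn F0 := by linarith
  set H0 : Fin N → ℂ := fun j => (nsq F0 : ℂ)⁻¹ * starRingEnd ℂ (F0 j) with hH0
  have hH0n : nn H0 ≤ 1 / δ := by
    rw [hH0, Mix.nn_smul]
    have h1 : nn (fun j => starRingEnd ℂ (F0 j)) = nn F0 := by
      unfold nn
      rw [nsq_conj]
    rw [h1, norm_inv, Complex.norm_real, Real.norm_of_nonneg hns.le, ← nn_sq]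
    have h2 : (nn F0 ^ 2)⁻¹ * nn F0 = 1 / nn F0 := by field_simp
    rw [h2]
    exact one_div_le_one_div_of_le hδ hnn
  have hbd0 : bd F0 H0 = 1 := by
    unfold bd
    rw [hH0]
    have h1 : ∑ j, F0 j * ((nsq F0 : ℂ)⁻¹ * starRingEnd ℂ (F0 j)) = (nsq F0 : ℂ)⁻¹ *
        (nsq F0 : ℂ) := by
      rw [nsq_c F0, Finset.mul_sum]
      exact Finset.sum_congr rfl fun j _ => by ring
    rw [h1, inv_mul_cancel₀]
    exact_mod_cast hns.ne'
  have hl0 : 1 ≤ l 0 := by have := D.ld; omega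
  have hu0 : 1 ≤ u 0 := hl0.trans (D.lu 0)
  have D' := D.shift (d' := u 0) le_rfl (D.ll 0)
  have hQc : Continuous (fun z => Qu l u (HH P) 0 z) :=
    continuous_pi fun j => (D.dm.Qg 0 j).diff.continuous
  have hQ0 : ∀ z : Hom.E n, ‖z‖ ≤ 1 → nn (Qu l u (HH P) 0 z) ≤ δ / 2 := fun z hz =>
    (Mix.le_closed (nn_cont.comp hQc) (B.sQ 0 h0W) hz).trans
      ((B.sc 0 h0W).trans (min_le_right _ _))
  have e0 : ∀ z, Fu (u 0) (fun i => u (i + 1)) (HH P) 0 z =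
      fun j => F0 j + Qu l u (HH P) 0 z j := fun z => by
    funext j
    have h1 := D.dm.succ 0 z j
    have h2 := congrFun (D.F0 z) j
    rw [h2] at h1
    rw [hF0]
    beta_reduce
    rw [← h1]
    rfl
  set G : Hom.E n → ℂ := fun z => ∑ j, Fu (u 0) (fun i => u (i + 1)) (HH P) 0 z j * H0 j with hG
  have hGg : Gr 0 (u 0) G := by
    refine Gr.sum _ fun j _ => ?_
    have h1 := (D'.dm.Fg 0 j)
    have h2 := h1.smul (H0 j)
    refine h2.congr fun z => ?_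
    ring
  have hGe : ∀ z : Hom.E n, ‖z‖ ≤ 1 → ‖G z - 1‖ ≤ 1 / 2 := by
    intro z hz
    have h1 : G z - 1 = bd (Qu l u (HH P) 0 z) H0 := by
      rw [← hbd0, hG]
      beta_reduce
      rw [e0]
      unfold bd
      rw [← Finset.sum_sub_distrib]
      exact Finset.sum_congr rfl fun j _ => by ring
    rw [h1]
    refine (bd_le_nn _ _).trans ?_
    calc nn (Qu l u (HH P) 0 z) * nn H0 ≤ δ / 2 * (1 / δ) :=
          mul_le_mul (hQ0 z hz) hH0n (nn_nonneg _) (by positivity)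
      _ = 1 / 2 := by field_simp
  have hG2 : ∀ z : Hom.E n, ‖z‖ ≤ 1 → 1 / 2 ≤ ‖G z‖ := by
    intro z hz
    have h1 := norm_sub_norm_le (1:ℂ) (1 - G z)
    rw [sub_sub_cancel, norm_one, norm_sub_rev] at h1
    have := hGe z hz
    linarith
  have hG3 : ∀ z : Hom.E n, ‖z‖ ≤ 1 → ‖G z‖ ≤ 2 := by
    intro z hz
    have h1 := norm_add_le (G z - 1) 1
    rw [sub_add_cancel, norm_one] at h1
    have := hGe z hz
    linarith
  have lG := Lc.of_gr hu0 hGg (by norm_num) hG3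
  have lGi := lG.inv (c := 1 / 2) (by norm_num) hG2
  set h0 : Hom.E n → Fin N → ℂ := fun z j => H0 j * (G z)⁻¹ with hh0
  have q1 : ∀ j, ∃ b', Lc b' (Λ0 * Real.sqrt (u 0)) (fun z => h0 z j) := by
    intro j
    refine ⟨‖H0 j‖ * (1 / (1 / 2)), ?_⟩
    have h1 := (Lc.const (m := n) (H0 j)).mul lGi
    refine h1.mono le_rfl ?_
    have h2 : ‖H0 j‖ ≤ 1 / δ := (comp_le_nn H0 j).trans hH0n
    rw [mul_zero, add_zero, hΛ0]
    calc ‖H0 j‖ * (12 * 2 * Real.sqrt (u 0) / (1 / 2) ^ 2) ≤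
          1 / δ * (12 * 2 * Real.sqrt (u 0) / (1 / 2) ^ 2) :=
          mul_le_mul_of_nonneg_right h2 (by positivity)
      _ = 1 / δ * (12 * 2 / (1 / 2) ^ 2) * Real.sqrt (u 0) := by ring
  have q2 : ∀ z : Hom.E n, ‖z‖ ≤ 1 →
      bd (Fu (u 0) (fun i => u (i + 1)) (HH P) 0 z) (h0 z) = 1 := by
    intro z hz
    have hz0 : G z ≠ 0 := norm_pos_iff.1 (by linarith [hG2 z hz])
    rw [hh0]
    unfold bd
    have h1 : ∑ j, Fu (u 0) (fun i => u (i + 1)) (HH P) 0 z j * (H0 j * (G z)⁻¹) =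
        G z * (G z)⁻¹ := by
      rw [hG, Finset.sum_mul]
      exact Finset.sum_congr rfl fun j _ => by ring
    rw [h1, mul_inv_cancel₀ hz0]
  have q3 : ∀ z : Hom.E n, ‖z‖ ≤ 1 → nsq (h0 z) *
      Real.exp (-(A * nsq (Fu (u 0) (fun i => u (i + 1)) (HH P) 0 z))) ≤ P1 + (2 / δ) ^ 2 := by
    intro z hz
    have h1 : nsq (h0 z) ≤ (2 / δ) ^ 2 := by
      have e1 : h0 z = fun j => (G z)⁻¹ * H0 j := by
        funext j
        rw [hh0]
        ring
      rw [e1, ← nn_sq, Mix.nn_smul]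
      refine pow_le_pow_left₀ (mul_nonneg (norm_nonneg _) (nn_nonneg _)) ?_ 2
      rw [norm_inv]
      have h2 : ‖G z‖⁻¹ ≤ 2 := by
        rw [inv_le_comm₀ (by linarith [hG2 z hz]) (by norm_num)]
        have := hG2 z hz
        linarith
      calc ‖G z‖⁻¹ * nn H0 ≤ 2 * (1 / δ) := mul_le_mul h2 hH0n (nn_nonneg _) (by norm_num)
        _ = 2 / δ := by ring
    have h2 : Real.exp (-(A * nsq (Fu (u 0) (fun i => u (i + 1)) (HH P) 0 z))) ≤ 1 := by
      rw [Real.exp_le_one_iff]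
      have := nsq_nonneg (Fu (u 0) (fun i => u (i + 1)) (HH P) 0 z)
      nlinarith
    calc nsq (h0 z) * Real.exp (-(A * nsq (Fu (u 0) (fun i => u (i + 1)) (HH P) 0 z))) ≤
          nsq (h0 z) * 1 := mul_le_mul_of_nonneg_left h2 (nsq_nonneg _)
      _ ≤ P1 + (2 / δ) ^ 2 := by linarith
  obtain ⟨g, g1, g2, g3⟩ := hm (u 0) (fun i => l (i + 1)) (fun i => u (i + 1))
    {i | i + 1 ∈ W} (fun i => s (i + 1)) (HH P) (fun z j => f j z.ofLp) hu0 D'.dm D'.low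
    ((B.mono (min_le_left _ _)).shift0) h0 q1 q2 q3
  exact ⟨g, g1, g2, fun z hz => g3 z hz⟩

/-- uniformity in a bounded set of values of `d` -/
theorem unifC {Q : ℕ → ℝ → Prop} (hQ : ∀ d C C', C ≤ C' → Q d C → Q d C')
    (h : ∀ d, ∃ C, Q d C) (Dm : ℕ) : ∃ C : ℝ, ∀ d ≤ Dm, Q d C := by
  induction Dm with
  | zero =>
    obtain ⟨C, hC⟩ := h 0
    exact ⟨C, fun d hd => by rw [Nat.le_zero.1 hd]; exact hC⟩
  | succ Dm ih =>
    obtain ⟨C, h0⟩ := h (Dm + 1)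
    obtain ⟨C', h1⟩ := ih
    refine ⟨max C C', fun d hd => ?_⟩
    rcases Nat.lt_or_ge d (Dm + 1) with h2 | h2
    · exact hQ _ _ _ (le_max_right _ _) (h1 d (by omega))
    · rw [le_antisymm hd h2]
      exact hQ _ _ _ (le_max_left _ _) h0

/-- the conclusion, with all gaps -/
def Cn0 (n N : ℕ) (δ : ℝ) (K : ℕ) (c : ℝ) (d : ℕ) (C : ℝ) : Prop :=
  ∀ (l u : ℕ → ℕ) (W : Set ℕ) (s : ℕ → ℝ)
    (P : ℕ → Fin N → MP n) (f : Fin N → (Fin n → ℂ) → ℂ), PD δ d l u P f →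
    HB c K W s d l u (HH P) → SB C f

/-- the theorem for all `d`, with `c` independent of `d` -/
theorem qall (n N K : ℕ) {δ : ℝ} (hδ : 0 < δ) (hδ1 : δ ≤ 1) :
    ∃ c : ℝ, 0 < c ∧ ∀ d : ℕ, ∃ C : ℝ, Cn0 n N δ K c d C := by
  have hK' : ∀ {c : ℝ} {W : Set ℕ} {s : ℕ → ℝ} {d : ℕ} {l u : ℕ → ℕ}
      {H : ℕ → Hom.E n → Fin N → ℂ}, HB c K W s d l u H → HB c (K + 1) W s d l u H :=
    fun B => ⟨B.sup, B.gap, B.s0, B.s1, B.sW, B.sQ,
      fun i hi => (B.lg i hi).trans (Nat.mul_le_mul_right _ (Nat.le_succ K)), B.sc⟩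
  obtain ⟨c1, hc1, h1⟩ := qmain2 n N (K + 1) (by omega) hδ hδ1
  obtain ⟨c3, hc3, C3, h3⟩ := pz n N (K + 1) (by omega) hδ hδ1
  obtain ⟨L', hL'⟩ := exists_nat_ge (4 / c1 ^ 2)
  set L : ℕ := L' + 2 with hL
  have hLr : 4 / c1 ^ 2 ≤ (L : ℝ) := by rw [hL]; push_cast; linarith
  set c : ℝ := min (c1 / 2) c3 with hc
  have hc0 : 0 < c := lt_min (by positivity) hc3
  have hca : c ≤ c1 / 2 := min_le_left _ _
  have hcb : c ≤ c3 := min_le_right _ _
  refine ⟨c, hc0, fun d => ?_⟩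
  rcases Nat.eq_zero_or_pos d with hd0 | hd
  swap
  · obtain ⟨C, hC⟩ := h1 d hd
    exact ⟨C, fun l u W s P f D B => hC l u W s P f D ((hK' B).mono (hca.trans (by linarith)))⟩
  subst hd0
  obtain ⟨C1, h11⟩ := h1 1 le_rfl
  obtain ⟨C2, h2⟩ := unifC (Q := fun d C => 1 ≤ d → ∀ (l u : ℕ → ℕ) (W : Set ℕ) (s : ℕ → ℝ)
    (P : ℕ → Fin N → MP n) (f : Fin N → (Fin n → ℂ) → ℂ), PD δ d l u P f →
    HB c1 (K + 1) W s d l u (HH P) → SB C f)
    (fun d C C' hCC h hd l u W s P f D B => (h hd l u W s P f D B).mono hCC)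
    (fun d => by
      rcases Nat.eq_zero_or_pos d with hd0 | hd
      · exact ⟨0, fun hd => by omega⟩
      · obtain ⟨C, hC⟩ := h1 d hd
        exact ⟨C, fun _ => hC⟩) ((K + 1) * L)
  refine ⟨max C1 (max C2 C3), fun l u W s P f D B => ?_⟩
  have hl0 : 1 ≤ l 0 := by have := D.ld; omega
  by_cases h0W : 0 ∈ W
  swap
  · exact (h3 l u W s P f D ((hK' B).mono hcb) h0W).mono
      ((le_max_right _ _).trans (le_max_right _ _))
  rcases Nat.lt_or_ge (l 0) L with hlL | hlL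
  · -- the first block is in low degree
    have hu0 : u 0 ≤ (K + 1) * L := ((hK' B).lg 0 h0W).trans (Nat.mul_le_mul_left _ hlL.le)
    exact (h2 (u 0) hu0 (hl0.trans (D.lu 0)) _ _ _ _ P f (D.shift le_rfl (D.ll 0))
      (((hK' B).mono (hca.trans (by linarith))).shift0)).mono
      ((le_max_left _ _).trans (le_max_right _ _))
  · -- the first block is in high degree
    have D' : PD δ 1 l u P f := ⟨by omega, D.lu, D.ll, D.hP,
      fun k hk hkl j => D.sp k (by omega) hkl j, D.hs, D.fb⟩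
    have h4 : et (Du 1 u) l 0 ≤ c1 / 2 := by
      unfold et
      change Real.sqrt ((1 : ℕ) : ℝ) / Real.sqrt (l 0) ≤ c1 / 2
      rw [Nat.cast_one, Real.sqrt_one]
      have h5 : (L : ℝ) ≤ l 0 := by exact_mod_cast hlL
      have h6 : 2 / c1 ≤ Real.sqrt (l 0) := by
        apply Real.le_sqrt_of_sq_le
        rw [div_pow]
        norm_num
        linarith
      rw [div_le_iff₀ hc1] at h6
      rw [div_le_iff₀ (Real.sqrt_pos.2 (by exact_mod_cast hl0))]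
      nlinarith
    refine (h11 l u W s P f D' ⟨fun i => ?_, fun I => ?_, B.s0, B.s1, B.sW, B.sQ, (hK' B).lg,
      fun i hi => (B.sc i hi).trans (hca.trans (by linarith))⟩).mono (le_max_left _ _)
    · cases i with
      | zero => linarith
      | succ i =>
        have h5 : et (Du 1 u) l (i + 1) = et (Du 0 u) l (i + 1) := rfl
        rw [h5]
        have := B.sup (i + 1)
        linarith
    cases I with
    | zero => simp; exact hc1.le
    | succ I =>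
      rw [Finset.sum_range_succ']
      have h5 : ∑ i ∈ Finset.range I, s (i + 1) * et (Du 1 u) l (i + 1) =
          ∑ i ∈ Finset.range I, s (i + 1) * et (Du 0 u) l (i + 1) := rfl
      rw [h5]
      have h6 := B.gap (I + 1)
      rw [Finset.sum_range_succ'] at h6
      have h0 : 0 ≤ s 0 * et (Du 0 u) l 0 := mul_nonneg (B.s0 0) (et_nonneg _ _ _)
      have h7 : s 0 * et (Du 1 u) l 0 ≤ c1 / 2 :=
        (mul_le_of_le_one_left (et_nonneg _ _ _) (B.s1 0)).trans h4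
      linarith

end Pool.Agent.K9h23.Big
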